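import Mathlib

/-!
# Monochromatic cherries (for MP_bcc756_nt)
-/

set_option autoImplicit false

open Finset

namespace Pool.Agent.FQ

/-- the geometric sum `∑ y^i y'^(r-1-i)` -/
def gs (r y y' : ℕ) : ℕ := ∑ i ∈ range r, y ^ i * y' ^ (r - 1 - i)

theorem gs_mul (r y y' : ℕ) : (gs r y y' : ℤ) * ((y : ℤ) - y') = (y : ℤ) ^ r - (y' : ℤ) ^ r := by
  unfold gs
  push_cast
  exact (Commute.all (y : ℤ) (y' : ℤ)).geom_sum₂_mul r

theorem gs_lt (r : ℕ) (hr : 2 ≤ r) {y y' z z' : ℕ} (h : y < z) (h' : y' < z') :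
    gs r y y' < gs r z z' := by
  unfold gs
  apply Finset.sum_lt_sum
  · intro i _
    exact Nat.mul_le_mul (Nat.pow_le_pow_left h.le i) (Nat.pow_le_pow_left h'.le _)
  · refine ⟨r - 1, by rw [mem_range]; omega, ?_⟩
    rw [Nat.sub_self, pow_zero, pow_zero, mul_one, mul_one]
    exact Nat.pow_lt_pow_left h (by omega)

/-- `y` and `y'` are determined by their difference and `gs` -/
theorem gs_inj (r : ℕ) (hr : 2 ≤ r) {y y' z z' : ℕ} (h : (y : ℤ) - y' = (z : ℤ) - z')
    (hg : gs r y y' = gs r z z') : y = z := by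
  rcases lt_trichotomy y z with h1 | h1 | h1
  · have := gs_lt r hr h1 (show y' < z' by omega)
    omega
  · exact h1
  · have := gs_lt r hr h1 (show z' < y' by omega)
    omega

/-- `a - b` is `D` times an `r`-th power -/
def Rel (r : ℕ) (D : ℤ) (a b : ℕ) : Prop := ∃ y : ℕ, (a : ℤ) - b = D * (y : ℤ) ^ r

open Classical in
/-- the root -/
noncomputable def rt (r : ℕ) (D : ℤ) (a b : ℕ) : ℕ :=
  if h : Rel r D a b then h.choose else 0

theorem rt_spec {r : ℕ} {D : ℤ} {a b : ℕ} (h : Rel r D a b) :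
    (a : ℤ) - b = D * ((rt r D a b : ℕ) : ℤ) ^ r := by
  unfold rt
  rw [dif_pos h]
  exact h.choose_spec

open Classical in
/-- the number of integers in a finite set dividing a nonzero integer -/
theorem card_dvd_le (t : ℕ) (𝒟 : Finset ℤ) (N : ℤ) (hN : N ≠ 0)
    (ht : N.natAbs.divisors.card ≤ t) : (𝒟.filter (fun D => D ∣ N)).card ≤ 2 * t := by
  have h1 : (𝒟.filter (fun D => D ∣ N)).card ≤
      (N.natAbs.divisors ×ˢ (univ : Finset Bool)).card := by
    apply Finset.card_le_card_of_injOn (fun D => (D.natAbs, decide (0 < D)))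
    · intro D hD
      rw [mem_coe, mem_filter] at hD
      rw [mem_coe, mem_product]
      refine ⟨?_, mem_univ _⟩
      rw [Nat.mem_divisors]
      exact ⟨Int.natAbs_dvd_natAbs.2 hD.2, by simpa using hN⟩
    · intro D hD D' hD' h
      rw [mem_coe, mem_filter] at hD hD'
      simp only [Prod.mk.injEq] at h
      obtain ⟨h2, h3⟩ := h
      have h4 : D ≠ 0 := by
        rintro rfl
        exact hN (zero_dvd_iff.1 hD.2)
      have h5 : D' ≠ 0 := by
        rintro rfl
        exact hN (zero_dvd_iff.1 hD'.2)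
      have h6 : (0 < D) = (0 < D') := by simpa using h3
      rcases Int.natAbs_eq_natAbs_iff.1 h2 with h7 | h7
      · exact h7
      · exfalso
        rw [h7] at h6
        have h8 : (0 < -D') ↔ (0 < D') := by rw [h6]
        omega
  rw [card_product] at h1
  simp only [card_univ, Fintype.card_bool] at h1
  nlinarith

open Classical in
/-- cherries with two given different ends -/
theorem cherry (r : ℕ) (hr : 2 ≤ r) (t : ℕ) (A : Finset ℕ) (𝒟 : Finset ℤ) (b b' : ℕ)
    (hb : b ≠ b') (ht : ((b' : ℤ) - b).natAbs.divisors.card ≤ t) :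
    ((A ×ˢ 𝒟).filter (fun q => Rel r q.2 q.1 b ∧ Rel r q.2 q.1 b')).card ≤ 2 * t * t := by
  set N : ℤ := (b' : ℤ) - b with hNdef
  have hN : N ≠ 0 := by omega
  have key : ∀ (a : ℕ) (D : ℤ), Rel r D a b → Rel r D a b' →
      N = D * ((gs r (rt r D a b) (rt r D a b') : ℕ) : ℤ) *
        (((rt r D a b : ℕ) : ℤ) - ((rt r D a b' : ℕ) : ℤ)) := by
    intro a D h h'
    have h1 := rt_spec h
    have h2 := rt_spec h'
    rw [mul_assoc, gs_mul, mul_sub, ← h1, ← h2, hNdef]
    ring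
  have h1 : ((A ×ˢ 𝒟).filter (fun q => Rel r q.2 q.1 b ∧ Rel r q.2 q.1 b')).card ≤
      ((N.natAbs.divisors ×ˢ (univ : Finset Bool)) ×ˢ N.natAbs.divisors).card := by
    apply Finset.card_le_card_of_injOn
      (fun q => ((q.2.natAbs, decide (0 < q.2)), gs r (rt r q.2 q.1 b) (rt r q.2 q.1 b')))
    · rintro ⟨a, D⟩ hq
      rw [mem_coe, mem_filter] at hq
      obtain ⟨_, h, h'⟩ := hq
      have hk := key a D h h'
      rw [mem_coe, mem_product, mem_product]
      have hN0 : N.natAbs ≠ 0 := by simpa using hN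
      refine ⟨⟨?_, mem_univ _⟩, ?_⟩
      · rw [Nat.mem_divisors]
        refine ⟨Int.natAbs_dvd_natAbs.2 ?_, hN0⟩
        exact ⟨_, by rw [hk, mul_assoc]⟩
      · rw [Nat.mem_divisors]
        refine ⟨?_, hN0⟩
        rw [← Int.natCast_dvd]
        exact ⟨D * (((rt r D a b : ℕ) : ℤ) - ((rt r D a b' : ℕ) : ℤ)), by
          rw [hk]; ring⟩
    · rintro ⟨a, D⟩ hq ⟨a', D'⟩ hq' heq
      rw [mem_coe, mem_filter] at hq hq'
      obtain ⟨_, h, h'⟩ := hq
      obtain ⟨_, g, g'⟩ := hq'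
      simp only at h h' g g'
      have hk := key a D h h'
      have hk' := key a' D' g g'
      simp only [Prod.mk.injEq] at heq
      obtain ⟨⟨h2, h3⟩, h4⟩ := heq
      have hD : D ≠ 0 := by
        rintro rfl
        apply hN
        rw [hk]
        ring
      have hD' : D' ≠ 0 := by
        rintro rfl
        apply hN
        rw [hk']
        ring
      have hDD : D = D' := by
        have h6 : (0 < D) = (0 < D') := by simpa using h3
        rcases Int.natAbs_eq_natAbs_iff.1 h2 with h7 | h7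
        · exact h7
        · exfalso
          rw [h7] at h6
          have h8 : (0 < -D') ↔ (0 < D') := by rw [h6]
          omega
      subst hDD
      have hgs : ((gs r (rt r D a b) (rt r D a b') : ℕ) : ℤ) ≠ 0 := by
        intro h0
        apply hN
        rw [hk, h0]
        ring
      have hdiff : ((rt r D a b : ℕ) : ℤ) - ((rt r D a b' : ℕ) : ℤ) =
          ((rt r D a' b : ℕ) : ℤ) - ((rt r D a' b' : ℕ) : ℤ) := by
        have h9 : D * ((gs r (rt r D a b) (rt r D a b') : ℕ) : ℤ) *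
            (((rt r D a b : ℕ) : ℤ) - ((rt r D a b' : ℕ) : ℤ)) =
            D * ((gs r (rt r D a b) (rt r D a b') : ℕ) : ℤ) *
            (((rt r D a' b : ℕ) : ℤ) - ((rt r D a' b' : ℕ) : ℤ)) := by
          rw [← hk]
          conv_rhs => rw [h4]
          exact hk'
        exact mul_left_cancel₀ (mul_ne_zero hD hgs) h9
      have hy := gs_inj r hr hdiff h4
      have e1 := rt_spec h
      have e2 := rt_spec g
      rw [hy, ← e2] at e1
      have : a = a' := by omega
      rw [this]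
  rw [card_product, card_product] at h1
  simp only [card_univ, Fintype.card_bool] at h1
  calc _ ≤ N.natAbs.divisors.card * 2 * N.natAbs.divisors.card := h1
    _ ≤ t * 2 * t := Nat.mul_le_mul (Nat.mul_le_mul_right 2 ht) ht
    _ = 2 * t * t := by ring

open Classical in
/-- the graph bound: if at least `3/8` of the pairs of `A × B` have a difference of the form
`D y^r` with `D ∈ 𝒟` then `|A| ≤ 32 t^2 |𝒟|` -/
theorem graph_bound (r : ℕ) (hr : 2 ≤ r) (t R n : ℕ) (A B : Finset ℕ) (𝒟 : Finset ℤ)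
    (hA : A.card = n) (hB : B.card = n) (hAR : ∀ a ∈ A, a ≤ R) (hBR : ∀ b ∈ B, b ≤ R)
    (hAB : ∀ a ∈ A, ∀ b ∈ B, a ≠ b) (ht1 : 1 ≤ t)
    (ht : ∀ m : ℕ, m ≤ R → m.divisors.card ≤ t)
    (hE : 3 * n ^ 2 ≤ 8 * ((A ×ˢ B).filter (fun q => ∃ D ∈ 𝒟, Rel r D q.1 q.2)).card) :
    n ≤ 32 * t ^ 2 * 𝒟.card := by
  -- degrees
  set deg : ℕ × ℤ → ℕ := fun q => (B.filter (fun b => Rel r q.2 q.1 b)).card with hdeg
  have h1 : ((A ×ˢ B).filter (fun q => ∃ D ∈ 𝒟, Rel r D q.1 q.2)).card ≤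
      ∑ q ∈ A ×ˢ 𝒟, deg q := by
    have h2 : ∑ q ∈ A ×ˢ 𝒟, deg q =
        ((A ×ˢ 𝒟) ×ˢ B |>.filter (fun q => Rel r q.1.2 q.1.1 q.2)).card := by
      rw [card_filter, Finset.sum_product (A ×ˢ 𝒟) B]
      apply sum_congr rfl
      intro q _
      rw [hdeg]
      simp only
      rw [card_filter]
    rw [h2]
    have h3 : (A ×ˢ B).filter (fun q => ∃ D ∈ 𝒟, Rel r D q.1 q.2) ⊆
        ((A ×ˢ 𝒟) ×ˢ B |>.filter (fun q => Rel r q.1.2 q.1.1 q.2)).image
          (fun q => (q.1.1, q.2)) := by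
      rintro ⟨a, b⟩ hq
      rw [mem_filter, mem_product] at hq
      obtain ⟨⟨ha, hb⟩, D, hD, hrel⟩ := hq
      rw [mem_image]
      refine ⟨((a, D), b), ?_, rfl⟩
      rw [mem_filter, mem_product, mem_product]
      exact ⟨⟨⟨ha, hD⟩, hb⟩, hrel⟩
    exact (card_le_card h3).trans card_image_le
  -- second moment
  have h2 : ∑ q ∈ A ×ˢ 𝒟, deg q ^ 2 ≤ 4 * t ^ 2 * n ^ 2 := by
    have h3 : ∀ q, deg q ^ 2 = ∑ b ∈ B, ∑ b' ∈ B,
        (if Rel r q.2 q.1 b ∧ Rel r q.2 q.1 b' then 1 else 0) := by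
      intro q
      rw [hdeg]
      simp only
      rw [sq, card_filter, sum_mul_sum]
      apply sum_congr rfl
      intro b _
      apply sum_congr rfl
      intro b' _
      by_cases hb1 : Rel r q.2 q.1 b <;> by_cases hb2 : Rel r q.2 q.1 b' <;> simp [hb1, hb2]
    have h4 : ∑ q ∈ A ×ˢ 𝒟, deg q ^ 2 = ∑ b ∈ B, ∑ b' ∈ B,
        ((A ×ˢ 𝒟).filter (fun q => Rel r q.2 q.1 b ∧ Rel r q.2 q.1 b')).card := by
      rw [sum_congr rfl (fun q _ => h3 q), sum_comm]
      apply sum_congr rfl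
      intro b _
      rw [sum_comm]
      apply sum_congr rfl
      intro b' _
      rw [card_filter]
    rw [h4]
    have h5 : ∀ b ∈ B, ∀ b' ∈ B,
        ((A ×ˢ 𝒟).filter (fun q => Rel r q.2 q.1 b ∧ Rel r q.2 q.1 b')).card ≤
          2 * t * t + if b = b' then 2 * t * n else 0 := by
      intro b hb b' hb'
      have hd : ∀ x y : ℕ, x ≤ R → y ≤ R → (((x : ℤ) - y).natAbs) ≤ R := by
        intro x y hx hy
        omega
      by_cases hbb : b = b'
      · subst hbb
        rw [if_pos rfl]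
        have h6 : ((A ×ˢ 𝒟).filter (fun q => Rel r q.2 q.1 b ∧ Rel r q.2 q.1 b)).card ≤
            ∑ a ∈ A, (𝒟.filter (fun D => D ∣ ((a : ℤ) - b))).card := by
          rw [card_filter, sum_product]
          apply sum_le_sum
          intro a _
          rw [card_filter]
          apply sum_le_sum
          intro D _
          by_cases hD : Rel r D a b
          · have : D ∣ ((a : ℤ) - b) := by
              obtain ⟨y, hy⟩ := hD
              exact ⟨_, hy⟩
            simp [hD, this]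
          · simp [hD]
        have h7 : ∑ a ∈ A, (𝒟.filter (fun D => D ∣ ((a : ℤ) - b))).card ≤ ∑ a ∈ A, 2 * t := by
          apply sum_le_sum
          intro a ha
          apply card_dvd_le
          · have := hAB a ha b hb
            omega
          · exact ht _ (hd a b (hAR a ha) (hBR b hb))
        rw [sum_const, hA, smul_eq_mul] at h7
        nlinarith
      · rw [if_neg hbb, add_zero]
        exact cherry r hr t A 𝒟 b b' hbb (ht _ (hd b' b (hBR b' hb') (hBR b hb)))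
    calc ∑ b ∈ B, ∑ b' ∈ B,
        ((A ×ˢ 𝒟).filter (fun q => Rel r q.2 q.1 b ∧ Rel r q.2 q.1 b')).card
        ≤ ∑ b ∈ B, ∑ b' ∈ B, (2 * t * t + if b = b' then 2 * t * n else 0) :=
          sum_le_sum fun b hb => sum_le_sum fun b' hb' => h5 b hb b' hb'
      _ = 2 * t * t * n ^ 2 + 2 * t * n ^ 2 := by
          simp only [sum_add_distrib, sum_const, smul_eq_mul, hB, sum_ite_eq]
          have : ∑ x ∈ B, (if x ∈ B then 2 * t * n else 0) = n * (2 * t * n) := by
            rw [sum_congr rfl (fun x hx => if_pos hx), sum_const, hB, smul_eq_mul]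
          rw [this]
          ring
      _ ≤ 4 * t ^ 2 * n ^ 2 := by
          have : t ≤ t ^ 2 := by nlinarith
          nlinarith [Nat.zero_le (n ^ 2)]
  -- Cauchy-Schwarz
  have h3 : (∑ q ∈ A ×ˢ 𝒟, deg q) ^ 2 ≤ (A ×ˢ 𝒟).card * ∑ q ∈ A ×ˢ 𝒟, deg q ^ 2 :=
    sq_sum_le_card_mul_sum_sq
  rw [card_product, hA] at h3
  rcases Nat.eq_zero_or_pos n with hn | hn
  · omega
  set E := ((A ×ˢ B).filter (fun q => ∃ D ∈ 𝒟, Rel r D q.1 q.2)).card with hEdef
  have h4 : (3 * n ^ 2) ^ 2 ≤ 64 * (n * 𝒟.card * (4 * t ^ 2 * n ^ 2)) := by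
    calc (3 * n ^ 2) ^ 2 ≤ (8 * E) ^ 2 := Nat.pow_le_pow_left hE 2
      _ = 64 * E ^ 2 := by ring
      _ ≤ 64 * (∑ q ∈ A ×ˢ 𝒟, deg q) ^ 2 :=
          Nat.mul_le_mul_left _ (Nat.pow_le_pow_left h1 2)
      _ ≤ 64 * (n * 𝒟.card * ∑ q ∈ A ×ˢ 𝒟, deg q ^ 2) := Nat.mul_le_mul_left _ h3
      _ ≤ _ := Nat.mul_le_mul_left _ (Nat.mul_le_mul_left _ h2)
  have h5 : n ^ 3 * (9 * n) ≤ n ^ 3 * (256 * (t ^ 2 * 𝒟.card)) := by
    calc n ^ 3 * (9 * n) = (3 * n ^ 2) ^ 2 := by ring
      _ ≤ 64 * (n * 𝒟.card * (4 * t ^ 2 * n ^ 2)) := h4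
      _ = _ := by ring
  have h6 := Nat.le_of_mul_le_mul_left h5 (by positivity)
  have h7 : 32 * t ^ 2 * 𝒟.card = 32 * (t ^ 2 * 𝒟.card) := by ring
  rw [h7]
  omega

end Pool.Agent.FQ
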