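import Mathlib

/-!
# The part of a difference composed of few primes is small on average (for MP_bcc756_nt)
-/

set_option autoImplicit false

open Finset

namespace Pool.Agent.FQ

/-- logarithm of the part of `N` composed of the primes in `Q` -/
noncomputable def LQ (Q : Finset ℕ) (N : ℕ) : ℝ := ∑ p ∈ Q, (N.factorization p : ℝ) * Real.log p

/-- distance -/
def dst (a b : ℕ) : ℕ := ((a : ℤ) - b).natAbs

theorem LQ_le_log (Q : Finset ℕ) (N : ℕ) : LQ Q N ≤ Real.log N := by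
  rw [Real.log_nat_eq_sum_factorization, LQ, Finsupp.sum]
  have h1 : ∑ p ∈ Q, (N.factorization p : ℝ) * Real.log p =
      ∑ p ∈ Q.filter (fun p => p ∈ N.factorization.support),
        (N.factorization p : ℝ) * Real.log p := by
    rw [sum_filter]
    apply sum_congr rfl
    intro p _
    split_ifs with h
    · rfl
    · rw [Finsupp.notMem_support_iff] at h
      rw [h]
      simp
  rw [h1]
  apply sum_le_sum_of_subset_of_nonneg
  · intro p hp
    exact (mem_filter.1 hp).2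
  · intro p hp _
    have : 1 ≤ p := by
      rw [Nat.support_factorization] at hp
      exact (Nat.prime_of_mem_primeFactors hp).one_le
    exact mul_nonneg (Nat.cast_nonneg _) (Real.log_nonneg (by exact_mod_cast this))

/-- the number of `j` in `1..log_p R` with `p^j ∣ N` -/
def cJ (R p N : ℕ) : ℕ := ((Icc 1 (Nat.log p R)).filter (fun j => p ^ j ∣ N)).card

theorem cJ_zero (R p : ℕ) : cJ R p 0 = Nat.log p R := by
  unfold cJ
  rw [filter_true_of_mem (fun j _ => dvd_zero _), Nat.card_Icc]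
  omega

theorem cJ_eq (R p N : ℕ) (hp : p.Prime) (hN : N ≠ 0) (hR : N ≤ R) :
    cJ R p N = N.factorization p := by
  unfold cJ
  have h1 : (Icc 1 (Nat.log p R)).filter (fun j => p ^ j ∣ N) = Icc 1 (N.factorization p) := by
    ext j
    rw [mem_filter, mem_Icc, mem_Icc]
    constructor
    · rintro ⟨⟨h1, _⟩, h3⟩
      exact ⟨h1, (hp.pow_dvd_iff_le_factorization hN).1 h3⟩
    · rintro ⟨h1, h2⟩
      have h3 := (hp.pow_dvd_iff_le_factorization hN).2 h2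
      refine ⟨⟨h1, ?_⟩, h3⟩
      apply Nat.le_log_of_pow_le hp.one_lt
      exact (Nat.le_of_dvd (Nat.pos_of_ne_zero hN) h3).trans hR
  rw [h1, Nat.card_Icc]
  omega

theorem log_mul_le (R p : ℕ) (hp : p.Prime) (hR : 1 ≤ R) :
    (Nat.log p R : ℝ) * Real.log p ≤ Real.log R := by
  have h1 : p ^ (Nat.log p R) ≤ R := Nat.pow_log_le_self p (by omega)
  have h2 : Real.log ((p : ℝ) ^ (Nat.log p R)) ≤ Real.log R := by
    apply Real.log_le_log
    · have : (0 : ℝ) < p := by exact_mod_cast hp.pos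
      positivity
    · exact_mod_cast h1
  rwa [Real.log_pow] at h2

/-- collisions between two maps against collisions of each of them -/
theorem two_card_eq_le {α β γ : Type} [DecidableEq α] [DecidableEq β] [DecidableEq γ]
    (U : Finset α) (W : Finset β) (φ : α → γ) (ψ : β → γ) :
    2 * ((U ×ˢ W).filter (fun q => φ q.1 = ψ q.2)).card ≤
      ((U ×ˢ U).filter (fun q => φ q.1 = φ q.2)).card +
        ((W ×ˢ W).filter (fun q => ψ q.1 = ψ q.2)).card := by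
  set K := U.image φ ∪ W.image ψ with hK
  have h1 : ((U ×ˢ W).filter (fun q => φ q.1 = ψ q.2)).card =
      ∑ c ∈ K, (U.filter (fun a => φ a = c)).card * (W.filter (fun a => ψ a = c)).card := by
    rw [Finset.card_eq_sum_card_fiberwise (f := fun q => φ q.1) (t := K)]
    · apply sum_congr rfl
      intro c _
      rw [← card_product]
      congr 1
      ext ⟨a, b⟩
      simp only [mem_filter, mem_product]
      constructor
      · rintro ⟨⟨⟨ha, hb⟩, h⟩, hc⟩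
        exact ⟨⟨ha, hc⟩, hb, by rw [← h, hc]⟩
      · rintro ⟨⟨ha, hc⟩, hb, hd⟩
        exact ⟨⟨⟨ha, hb⟩, by rw [hc, hd]⟩, hc⟩
    · rintro ⟨a, b⟩ hq
      rw [mem_coe, mem_filter, mem_product] at hq
      rw [mem_coe, hK, mem_union]
      exact Or.inl (mem_image_of_mem φ hq.1.1)
  have h2 : ((U ×ˢ U).filter (fun q => φ q.1 = φ q.2)).card =
      ∑ c ∈ K, (U.filter (fun a => φ a = c)).card * (U.filter (fun a => φ a = c)).card := by
    rw [Finset.card_eq_sum_card_fiberwise (f := fun q => φ q.1) (t := K)]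
    · apply sum_congr rfl
      intro c _
      rw [← card_product]
      congr 1
      ext ⟨a, b⟩
      simp only [mem_filter, mem_product]
      constructor
      · rintro ⟨⟨⟨ha, hb⟩, h⟩, hc⟩
        exact ⟨⟨ha, hc⟩, hb, by rw [← h, hc]⟩
      · rintro ⟨⟨ha, hc⟩, hb, hd⟩
        exact ⟨⟨⟨ha, hb⟩, by rw [hc, hd]⟩, hc⟩
    · rintro ⟨a, b⟩ hq
      rw [mem_coe, mem_filter, mem_product] at hq
      rw [mem_coe, hK, mem_union]
      exact Or.inl (mem_image_of_mem φ hq.1.1)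
  have h3 : ((W ×ˢ W).filter (fun q => ψ q.1 = ψ q.2)).card =
      ∑ c ∈ K, (W.filter (fun a => ψ a = c)).card * (W.filter (fun a => ψ a = c)).card := by
    rw [Finset.card_eq_sum_card_fiberwise (f := fun q => ψ q.1) (t := K)]
    · apply sum_congr rfl
      intro c _
      rw [← card_product]
      congr 1
      ext ⟨a, b⟩
      simp only [mem_filter, mem_product]
      constructor
      · rintro ⟨⟨⟨ha, hb⟩, h⟩, hc⟩
        exact ⟨⟨ha, hc⟩, hb, by rw [← h, hc]⟩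
      · rintro ⟨⟨ha, hc⟩, hb, hd⟩
        exact ⟨⟨⟨ha, hb⟩, by rw [hc, hd]⟩, hc⟩
    · rintro ⟨a, b⟩ hq
      rw [mem_coe, mem_filter, mem_product] at hq
      rw [mem_coe, hK, mem_union]
      exact Or.inr (mem_image_of_mem ψ hq.1.1)
  rw [h1, h2, h3, mul_sum, ← sum_add_distrib]
  apply sum_le_sum
  intro c _
  set x := (U.filter (fun a => φ a = c)).card
  set y := (W.filter (fun a => ψ a = c)).card
  rcases le_total x y with h | h
  · obtain ⟨z, hz⟩ := Nat.exists_eq_add_of_le h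
    rw [hz]
    nlinarith [Nat.zero_le (z * z)]
  · obtain ⟨z, hz⟩ := Nat.exists_eq_add_of_le h
    rw [hz]
    nlinarith [Nat.zero_le (z * z)]

theorem dvd_dst_iff (q a b : ℕ) : q ∣ dst a b ↔ a ≡ b [MOD q] := by
  unfold dst
  rw [← Int.natCast_dvd, Nat.modEq_iff_dvd, ← dvd_neg, neg_sub]

/-- the main inequality at a prime -/
theorem cJ_sum_le (R p : ℕ) (hp : p.Prime) (U₁ U₂ : Finset ℕ) (v₁ v₂ : ℕ)
    (hco : ∀ u₁ ∈ U₁, ∀ u₂ ∈ U₂, Nat.Coprime (u₁ * v₁) (u₂ * v₂)) :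
    2 * ∑ u₁ ∈ U₁, ∑ u₂ ∈ U₂, cJ R p (dst (u₁ * v₁) (u₂ * v₂)) ≤
      ∑ u ∈ U₁, ∑ u' ∈ U₁, cJ R p (dst u u') + ∑ u ∈ U₂, ∑ u' ∈ U₂, cJ R p (dst u u') := by
  have hsw : ∀ (A B : Finset ℕ) (f : ℕ → ℕ → ℕ),
      ∑ u ∈ A, ∑ u' ∈ B, cJ R p (f u u') = ∑ j ∈ Icc 1 (Nat.log p R),
        ((A ×ˢ B).filter (fun q => p ^ j ∣ f q.1 q.2)).card := by
    intro A B f
    rw [← sum_product (f := fun q => cJ R p (f q.1 q.2))]
    unfold cJ
    simp_rw [card_filter]
    rw [sum_comm]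
  rw [hsw U₁ U₂ (fun u₁ u₂ => dst (u₁ * v₁) (u₂ * v₂)), hsw U₁ U₁ dst, hsw U₂ U₂ dst, mul_sum,
    ← sum_add_distrib]
  apply sum_le_sum
  intro j hj
  rw [mem_Icc] at hj
  by_cases h0 : p ∣ v₁ ∨ p ∣ v₂
  · have h1 : (U₁ ×ˢ U₂).filter (fun q => p ^ j ∣ dst (q.1 * v₁) (q.2 * v₂)) = ∅ := by
      rw [filter_eq_empty_iff]
      rintro ⟨u₁, u₂⟩ hq hd
      rw [mem_product] at hq
      have hc := hco u₁ hq.1 u₂ hq.2
      simp only at hd
      have h2 : p ∣ dst (u₁ * v₁) (u₂ * v₂) := (dvd_pow_self p (by omega)).trans hd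
      rw [dvd_dst_iff] at h2
      rcases h0 with h0 | h0
      · have h3 : p ∣ u₁ * v₁ := h0.mul_left _
        have h4 : p ∣ u₂ * v₂ := (h2.dvd_iff dvd_rfl).1 h3
        have := Nat.dvd_gcd h3 h4
        rw [hc] at this
        exact hp.one_lt.ne' (Nat.dvd_one.1 this)
      · have h3 : p ∣ u₂ * v₂ := h0.mul_left _
        have h4 : p ∣ u₁ * v₁ := (h2.dvd_iff dvd_rfl).2 h3
        have := Nat.dvd_gcd h4 h3
        rw [hc] at this
        exact hp.one_lt.ne' (Nat.dvd_one.1 this)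
    rw [h1]
    simp
  · push Not at h0
    have h1 := two_card_eq_le U₁ U₂ (fun u => u * v₁ % p ^ j) (fun u => u * v₂ % p ^ j)
    have e1 : (U₁ ×ˢ U₂).filter (fun q => q.1 * v₁ % p ^ j = q.2 * v₂ % p ^ j) =
        (U₁ ×ˢ U₂).filter (fun q => p ^ j ∣ dst (q.1 * v₁) (q.2 * v₂)) := by
      apply filter_congr
      intro q _
      rw [dvd_dst_iff]
      rfl
    have e2 : ∀ (U : Finset ℕ) (v : ℕ), ¬ p ∣ v →
        (U ×ˢ U).filter (fun q => q.1 * v % p ^ j = q.2 * v % p ^ j) =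
        (U ×ˢ U).filter (fun q => p ^ j ∣ dst q.1 q.2) := by
      intro U v hv
      apply filter_congr
      intro q _
      rw [dvd_dst_iff]
      have hcop : Nat.gcd (p ^ j) v = 1 := Nat.Coprime.pow_left j ((hp.coprime_iff_not_dvd).2 hv)
      constructor
      · intro h
        exact Nat.ModEq.cancel_right_of_coprime hcop h
      · intro h
        exact Nat.ModEq.mul_right v h
    rw [e1, e2 U₁ v₁ h0.1, e2 U₂ v₂ h0.2] at h1
    exact h1

/-- average of `LQ` for fixed cofactors -/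
theorem LQ_sum_le (R R₀ n : ℕ) (hR₀ : 1 ≤ R₀) (hRR : R₀ ≤ R) (Q : Finset ℕ)
    (hQ : ∀ p ∈ Q, p.Prime) (U₁ U₂ : Finset ℕ)
    (v₁ v₂ : ℕ) (hco : ∀ u₁ ∈ U₁, ∀ u₂ ∈ U₂, Nat.Coprime (u₁ * v₁) (u₂ * v₂))
    (hU₁ : U₁.card = n) (hU₂ : U₂.card = n) (hb₁ : ∀ u ∈ U₁, u ≤ R₀) (hb₂ : ∀ u ∈ U₂, u ≤ R₀)
    (hne : ∀ u₁ ∈ U₁, ∀ u₂ ∈ U₂, u₁ * v₁ ≠ u₂ * v₂)
    (hle₁ : ∀ u ∈ U₁, u * v₁ ≤ R) (hle₂ : ∀ u ∈ U₂, u * v₂ ≤ R) :
    ∑ u₁ ∈ U₁, ∑ u₂ ∈ U₂, LQ Q (dst (u₁ * v₁) (u₂ * v₂)) ≤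
      n * (Q.card * Real.log R) + (n : ℝ) ^ 2 * Real.log R₀ := by
  have hR1 : 1 ≤ R := hR₀.trans hRR
  have hlogR₀ : 0 ≤ Real.log R₀ := Real.log_nonneg (by exact_mod_cast hR₀)
  have hdR : ∀ a b : ℕ, a ≤ R → b ≤ R → dst a b ≤ R := by
    intro a b ha hb
    unfold dst
    omega
  have hlog0 : ∀ p ∈ Q, 0 ≤ Real.log p := fun p hp =>
    Real.log_nonneg (by exact_mod_cast (hQ p hp).one_le)
  -- rewrite LQ by cJ
  have h1 : ∑ u₁ ∈ U₁, ∑ u₂ ∈ U₂, LQ Q (dst (u₁ * v₁) (u₂ * v₂)) =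
      ∑ p ∈ Q, ((∑ u₁ ∈ U₁, ∑ u₂ ∈ U₂, cJ R p (dst (u₁ * v₁) (u₂ * v₂)) : ℕ) : ℝ) *
        Real.log p := by
    have h2 : ∀ u₁ ∈ U₁, ∀ u₂ ∈ U₂, LQ Q (dst (u₁ * v₁) (u₂ * v₂)) =
        ∑ p ∈ Q, (cJ R p (dst (u₁ * v₁) (u₂ * v₂)) : ℝ) * Real.log p := by
      intro u₁ h₁ u₂ h₂
      unfold LQ
      apply sum_congr rfl
      intro p hp
      rw [cJ_eq R p _ (hQ p hp)]
      · have := hne u₁ h₁ u₂ h₂
        unfold dst
        omega
      · exact hdR _ _ (hle₁ u₁ h₁) (hle₂ u₂ h₂)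
    rw [sum_congr rfl (fun u₁ h₁ => sum_congr rfl (fun u₂ h₂ => h2 u₁ h₁ u₂ h₂))]
    rw [sum_congr rfl (fun u₁ h₁ => sum_comm), sum_comm]
    apply sum_congr rfl
    intro p _
    push_cast
    rw [sum_mul]
    apply sum_congr rfl
    intro u₁ _
    rw [sum_mul]
  -- the diagonal sums
  have h3 : ∀ U : Finset ℕ, U.card = n → (∀ u ∈ U, u ≤ R₀) →
      ∑ p ∈ Q, ((∑ u ∈ U, ∑ u' ∈ U, cJ R p (dst u u') : ℕ) : ℝ) * Real.log p ≤
        n * (Q.card * Real.log R) + (n : ℝ) ^ 2 * Real.log R₀ := by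
    intro U hU hUb
    have h4 : ∑ p ∈ Q, ((∑ u ∈ U, ∑ u' ∈ U, cJ R p (dst u u') : ℕ) : ℝ) * Real.log p =
        ∑ u ∈ U, ∑ u' ∈ U, ∑ p ∈ Q, (cJ R p (dst u u') : ℝ) * Real.log p := by
      symm
      rw [sum_congr rfl (fun u₁ h₁ => sum_comm), sum_comm]
      apply sum_congr rfl
      intro p _
      push_cast
      rw [sum_mul]
      apply sum_congr rfl
      intro u₁ _
      rw [sum_mul]
    rw [h4]
    have h5 : ∀ u ∈ U, ∀ u' ∈ U, ∑ p ∈ Q, (cJ R p (dst u u') : ℝ) * Real.log p ≤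
        (if u = u' then Q.card * Real.log R else 0) + Real.log R₀ := by
      intro u hu u' hu'
      by_cases huu : u = u'
      · subst huu
        rw [if_pos rfl]
        have h6 : dst u u = 0 := by unfold dst; simp
        rw [h6]
        have h7 : ∑ p ∈ Q, (cJ R p 0 : ℝ) * Real.log p ≤ ∑ p ∈ Q, Real.log R := by
          apply sum_le_sum
          intro p hp
          rw [cJ_zero]
          exact log_mul_le R p (hQ p hp) hR1
        rw [sum_const, nsmul_eq_mul] at h7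
        linarith
      · rw [if_neg huu, zero_add]
        have h6 : dst u u' ≠ 0 := by unfold dst; omega
        have h7 : dst u u' ≤ R₀ := by
          have := hUb u hu
          have := hUb u' hu'
          unfold dst
          omega
        have h8 : ∑ p ∈ Q, (cJ R p (dst u u') : ℝ) * Real.log p = LQ Q (dst u u') := by
          unfold LQ
          apply sum_congr rfl
          intro p hp
          rw [cJ_eq R p _ (hQ p hp) h6 (h7.trans hRR)]
        rw [h8]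
        refine (LQ_le_log Q _).trans ?_
        apply Real.log_le_log
        · exact_mod_cast Nat.pos_of_ne_zero h6
        · exact_mod_cast h7
    calc ∑ u ∈ U, ∑ u' ∈ U, ∑ p ∈ Q, (cJ R p (dst u u') : ℝ) * Real.log p
        ≤ ∑ u ∈ U, ∑ u' ∈ U, ((if u = u' then Q.card * Real.log R else 0) + Real.log R₀) :=
          sum_le_sum fun u hu => sum_le_sum fun u' hu' => h5 u hu u' hu'
      _ = n * (Q.card * Real.log R) + (n : ℝ) ^ 2 * Real.log R₀ := by
          simp only [sum_add_distrib, sum_const, nsmul_eq_mul, hU, sum_ite_eq]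
          have : ∑ x ∈ U, (if x ∈ U then (Q.card : ℝ) * Real.log R else 0) =
              n * (Q.card * Real.log R) := by
            rw [sum_congr rfl (fun x hx => if_pos hx), sum_const, hU, nsmul_eq_mul]
          rw [this]
          ring
  have h4 : 2 * ∑ p ∈ Q, ((∑ u₁ ∈ U₁, ∑ u₂ ∈ U₂, cJ R p (dst (u₁ * v₁) (u₂ * v₂)) : ℕ) : ℝ) *
        Real.log p ≤
      ∑ p ∈ Q, ((∑ u ∈ U₁, ∑ u' ∈ U₁, cJ R p (dst u u') : ℕ) : ℝ) * Real.log p +
      ∑ p ∈ Q, ((∑ u ∈ U₂, ∑ u' ∈ U₂, cJ R p (dst u u') : ℕ) : ℝ) * Real.log p := by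
    rw [mul_sum, ← sum_add_distrib]
    apply sum_le_sum
    intro p hp
    have h5 := cJ_sum_le R p (hQ p hp) U₁ U₂ v₁ v₂ hco
    have h6 : 2 * ((∑ u₁ ∈ U₁, ∑ u₂ ∈ U₂, cJ R p (dst (u₁ * v₁) (u₂ * v₂)) : ℕ) : ℝ) ≤
        ((∑ u ∈ U₁, ∑ u' ∈ U₁, cJ R p (dst u u') : ℕ) : ℝ) +
          ((∑ u ∈ U₂, ∑ u' ∈ U₂, cJ R p (dst u u') : ℕ) : ℝ) := by exact_mod_cast h5
    have h7 := mul_le_mul_of_nonneg_right h6 (hlog0 p hp)
    linarith
  rw [h1]
  have h5 := h3 U₁ hU₁ hb₁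
  have h6 := h3 U₂ hU₂ hb₂
  linarith

end Pool.Agent.FQ
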