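import Pool.Agent.FQ.Pow
import Pool.Agent.FQ.Graph
import Pool.Agent.FQ.Small

/-!
# The finite theorem (for MP_bcc756_nt)
-/

set_option autoImplicit false

open Finset

namespace Pool.Agent.FQ

/-- splitting off the part composed of the primes in `Q` -/
theorem split_Q (Q : Finset ℕ) (N : ℕ) (hN : N ≠ 0) : ∃ s w : ℕ, N = s * w ∧
    Real.log s = LQ Q N ∧ ∀ p : ℕ, p.Prime → p ∣ w → p ∉ Q ∧ p ∣ N ∧ (p ^ 2 ∣ N → p ^ 2 ∣ w) := by
  refine ⟨∏ p ∈ N.primeFactors.filter (fun p => p ∈ Q), p ^ N.factorization p,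
    ∏ p ∈ N.primeFactors.filter (fun p => ¬ p ∈ Q), p ^ N.factorization p, ?_, ?_, ?_⟩
  · rw [prod_filter_mul_prod_filter_not]
    exact (Nat.prod_factorization_pow_eq_self hN).symm
  · push_cast
    rw [Real.log_prod]
    · unfold LQ
      have h1 : ∑ p ∈ Q, (N.factorization p : ℝ) * Real.log p =
          ∑ p ∈ Q.filter (fun p => p ∈ N.primeFactors),
            (N.factorization p : ℝ) * Real.log p := by
        rw [sum_filter]
        apply sum_congr rfl
        intro p _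
        split_ifs with h
        · rfl
        · rw [← Nat.support_factorization, Finsupp.notMem_support_iff] at h
          rw [h]
          simp
      rw [h1]
      have h2 : N.primeFactors.filter (fun p => p ∈ Q) =
          Q.filter (fun p => p ∈ N.primeFactors) := by
        ext p
        simp only [mem_filter]
        tauto
      rw [h2]
      apply sum_congr rfl
      intro p _
      rw [Real.log_pow]
    · intro p hp
      have : p ≠ 0 := (Nat.prime_of_mem_primeFactors (mem_filter.1 hp).1).ne_zero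
      positivity
  · intro p hp hpw
    rw [Prime.dvd_finsetProd_iff hp.prime] at hpw
    obtain ⟨q, hq, hpq⟩ := hpw
    rw [mem_filter] at hq
    have hqp := Nat.prime_of_mem_primeFactors hq.1
    have h1 : p = q := (Nat.prime_dvd_prime_iff_eq hp hqp).1 (hp.dvd_of_dvd_pow hpq)
    subst h1
    refine ⟨hq.2, Nat.dvd_of_mem_primeFactors hq.1, ?_⟩
    intro h2
    have h3 : 2 ≤ N.factorization p := (hp.pow_dvd_iff_le_factorization hN).1 h2
    refine (pow_dvd_pow p h3).trans ?_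
    exact dvd_prod_of_mem (fun p => p ^ N.factorization p) (mem_filter.2 hq)

/-- the colours `± s v^3` -/
def D2 (S V : ℕ) : Finset ℤ :=
  ((Icc 1 S ×ˢ Icc 1 V) ×ˢ ({1, -1} : Finset ℤ)).image
    (fun q => q.2 * ((q.1.1 : ℤ) * (q.1.2 : ℤ) ^ 3))

/-- the colours `± s f g^2` with `f g ≤ V` -/
def D3 (S V : ℕ) : Finset ℤ :=
  ((Icc 1 S ×ˢ (Icc 1 V).sigma (fun m => m.divisors)) ×ˢ ({1, -1} : Finset ℤ)).image
    (fun q => q.2 * ((q.1.1 : ℤ) * (((q.1.2.1 / q.1.2.2 : ℕ) : ℤ) * (q.1.2.2 : ℤ) ^ 2)))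

theorem card_D2 (S V : ℕ) : (D2 S V).card ≤ 2 * S * V := by
  refine card_image_le.trans ?_
  rw [card_product, card_product, Nat.card_Icc, Nat.card_Icc]
  have : ({1, -1} : Finset ℤ).card = 2 := by decide
  rw [this, Nat.add_sub_cancel, Nat.add_sub_cancel]
  apply le_of_eq
  ring

theorem card_D3 (S V t : ℕ) (ht : ∀ m ≤ V, m.divisors.card ≤ t) :
    (D3 S V).card ≤ 2 * S * V * t := by
  refine card_image_le.trans ?_
  rw [card_product, card_product, Nat.card_Icc, card_sigma]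
  have : ({1, -1} : Finset ℤ).card = 2 := by decide
  rw [this, Nat.add_sub_cancel]
  have h1 : ∑ m ∈ Icc 1 V, m.divisors.card ≤ ∑ m ∈ Icc 1 V, t :=
    sum_le_sum fun m hm => ht m (mem_Icc.1 hm).2
  rw [sum_const, Nat.card_Icc, Nat.add_sub_cancel, smul_eq_mul] at h1
  calc S * (∑ m ∈ Icc 1 V, m.divisors.card) * 2 ≤ S * (V * t) * 2 :=
        Nat.mul_le_mul_right 2 (Nat.mul_le_mul_left S h1)
    _ = 2 * S * V * t := by ring

open Classical in
theorem core (R S V t n : ℕ) (L : ℝ) (Q A B : Finset ℕ) (hA : A.card = n) (hB : B.card = n)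
    (hAR : ∀ a ∈ A, a ≤ R) (hBR : ∀ b ∈ B, b ≤ R) (hAB : ∀ a ∈ A, ∀ b ∈ B, a ≠ b)
    (ht1 : 1 ≤ t) (ht : ∀ m : ℕ, m ≤ R → m.divisors.card ≤ t)
    (hS : ∀ s : ℕ, Real.log s ≤ L → s ≤ S) (hV : ∀ v : ℕ, v ^ 5 ≤ R → v ≤ V) (hVR : V ≤ R)
    (hbad : 4 * ((A ×ˢ B).filter (fun q => L < LQ Q (dst q.1 q.2))).card ≤ n ^ 2)
    (H : ∀ a ∈ A, ∀ b ∈ B, ∀ p : ℕ, p.Prime → p ∉ Q → p ∣ dst a b → p ^ 2 ∣ dst a b) :
    n ≤ 64 * t ^ 3 * S * V := by
  -- every pair which is not bad has one of the two shapes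
  have key : ∀ a ∈ A, ∀ b ∈ B, ¬ (L < LQ Q (dst a b)) →
      (∃ D ∈ D2 S V, Rel 2 D a b) ∨ (∃ D ∈ D3 S V, Rel 3 D a b) := by
    intro a ha b hb hL
    push Not at hL
    have hN : dst a b ≠ 0 := by
      have := hAB a ha b hb
      unfold dst
      omega
    have hNR : dst a b ≤ R := by
      have := hAR a ha
      have := hBR b hb
      unfold dst
      omega
    obtain ⟨s, w, h1, h2, h3⟩ := split_Q Q (dst a b) hN
    have hs0 : s ≠ 0 := by
      rintro rfl
      rw [zero_mul] at h1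
      exact hN h1
    have hw0 : w ≠ 0 := by
      rintro rfl
      rw [mul_zero] at h1
      exact hN h1
    have hsS : s ≤ S := hS s (by rw [h2]; exact hL)
    have hwR : w ≤ R := by
      refine le_trans ?_ hNR
      rw [h1]
      exact Nat.le_mul_of_pos_left w (Nat.pos_of_ne_zero hs0)
    have hpw : ∀ p : ℕ, p.Prime → p ∣ w → p ^ 2 ∣ w := by
      intro p hp hpw
      obtain ⟨h4, h5, h6⟩ := h3 p hp hpw
      exact h6 (H a ha b hb p hp h4 h5)
    obtain ⟨ε, hε, hab⟩ : ∃ ε : ℤ, ε ∈ ({1, -1} : Finset ℤ) ∧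
        (a : ℤ) - b = ε * ((s : ℤ) * w) := by
      have h4 : ((dst a b : ℕ) : ℤ) = (s : ℤ) * w := by
        rw [h1]
        push_cast
        rfl
      rw [← h4]
      unfold dst
      rcases Int.natAbs_eq ((a : ℤ) - b) with h | h
      · exact ⟨1, by simp, by rw [one_mul]; exact h⟩
      · exact ⟨-1, by simp, by rw [neg_one_mul]; exact h⟩
    rcases pow_decomp_cases w R hw0 hwR hpw with ⟨v, u, h4, h5⟩ | ⟨f, g, r, h4, h5⟩
    · left
      have hv0 : v ≠ 0 := by
        rintro rfl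
        apply hw0
        rw [h4]
        ring
      refine ⟨ε * ((s : ℤ) * (v : ℤ) ^ 3), ?_, u, ?_⟩
      · unfold D2
        rw [mem_image]
        refine ⟨((s, v), ε), ?_, rfl⟩
        rw [mem_product, mem_product, mem_Icc, mem_Icc]
        exact ⟨⟨⟨Nat.one_le_iff_ne_zero.2 hs0, hsS⟩, Nat.one_le_iff_ne_zero.2 hv0, hV v h5⟩, hε⟩
      · rw [hab, h4]
        push_cast
        ring
    · right
      have hf0 : f ≠ 0 := by
        rintro rfl
        apply hw0
        rw [h4]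
        ring
      have hg0 : g ≠ 0 := by
        rintro rfl
        apply hw0
        rw [h4]
        ring
      refine ⟨ε * ((s : ℤ) * ((f : ℤ) * (g : ℤ) ^ 2)), ?_, r, ?_⟩
      · unfold D3
        rw [mem_image]
        refine ⟨((s, ⟨f * g, g⟩), ε), ?_, ?_⟩
        · rw [mem_product, mem_product, mem_Icc, mem_sigma, mem_Icc, Nat.mem_divisors]
          have hfg : f * g ≠ 0 := mul_ne_zero hf0 hg0
          exact ⟨⟨⟨Nat.one_le_iff_ne_zero.2 hs0, hsS⟩,
            ⟨Nat.one_le_iff_ne_zero.2 hfg, hV (f * g) h5⟩, dvd_mul_left g f, hfg⟩, hε⟩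
        · simp only
          rw [Nat.mul_div_cancel f (Nat.pos_of_ne_zero hg0)]
      · rw [hab, h4]
        push_cast
        ring
  set P := A ×ˢ B with hP
  have hPc : P.card = n ^ 2 := by rw [hP, card_product, hA, hB]; ring
  set E2 := P.filter (fun q => ∃ D ∈ D2 S V, Rel 2 D q.1 q.2) with hE2
  set E3 := P.filter (fun q => ∃ D ∈ D3 S V, Rel 3 D q.1 q.2) with hE3
  set Bd := P.filter (fun q => L < LQ Q (dst q.1 q.2)) with hBd
  have hcov : P ⊆ Bd ∪ (E2 ∪ E3) := by
    rintro ⟨a, b⟩ hq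
    have hq' := hq
    rw [hP, mem_product] at hq'
    rw [mem_union, mem_union]
    by_cases hL : L < LQ Q (dst a b)
    · left
      rw [hBd, mem_filter]
      exact ⟨hq, hL⟩
    · right
      rcases key a hq'.1 b hq'.2 hL with h | h
      · left
        rw [hE2, mem_filter]
        exact ⟨hq, h⟩
      · right
        rw [hE3, mem_filter]
        exact ⟨hq, h⟩
  have hcard : n ^ 2 ≤ Bd.card + (E2.card + E3.card) := by
    rw [← hPc]
    calc P.card ≤ (Bd ∪ (E2 ∪ E3)).card := card_le_card hcov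
      _ ≤ Bd.card + (E2 ∪ E3).card := card_union_le _ _
      _ ≤ Bd.card + (E2.card + E3.card) := Nat.add_le_add_left (card_union_le _ _) _
  have h1 : 3 * n ^ 2 ≤ 8 * E2.card ∨ 3 * n ^ 2 ≤ 8 * E3.card := by
    by_contra hc
    push Not at hc
    omega
  have htV : ∀ m ≤ V, m.divisors.card ≤ t := fun m hm => ht m (hm.trans hVR)
  rcases h1 with h1 | h1
  · have h2 := graph_bound 2 (by norm_num) t R n A B (D2 S V) hA hB hAR hBR hAB ht1 ht h1
    calc n ≤ 32 * t ^ 2 * (D2 S V).card := h2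
      _ ≤ 32 * t ^ 2 * (2 * S * V) := Nat.mul_le_mul_left _ (card_D2 S V)
      _ = 64 * t ^ 2 * 1 * (S * V) := by ring
      _ ≤ 64 * t ^ 2 * t * (S * V) := by
          apply Nat.mul_le_mul_right
          exact Nat.mul_le_mul_left _ ht1
      _ = 64 * t ^ 3 * S * V := by ring
  · have h2 := graph_bound 3 (by norm_num) t R n A B (D3 S V) hA hB hAR hBR hAB ht1 ht h1
    calc n ≤ 32 * t ^ 2 * (D3 S V).card := h2
      _ ≤ 32 * t ^ 2 * (2 * S * V * t) := Nat.mul_le_mul_left _ (card_D3 S V t htV)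
      _ = 64 * t ^ 3 * S * V := by ring

end Pool.Agent.FQ
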