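import Mathlib

/-!
Definitions for the result on primes with a small nonvanishing Fermat quotient
(problem MP_bcc756_nt).
-/

set_option autoImplicit false

namespace Pool.Agent.FQ

/-- Property (P89) of the problem with `89` replaced by `y` (with the sign minus): some integer
`k` not divisible by `p` satisfies `k p = a - b` for positive integers `a`, `b` all of whose prime
factors are at most `y`. -/
def PropP (y : ℝ) (p : ℕ) : Prop :=
  ∃ (k : ℤ) (a b : ℕ), ¬ (p : ℤ) ∣ k ∧ 0 < a ∧ 0 < b ∧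
    (∀ q : ℕ, q.Prime → q ∣ a → (q : ℝ) ≤ y) ∧ (∀ q : ℕ, q.Prime → q ∣ b → (q : ℝ) ≤ y) ∧
    k * p = (a : ℤ) - b

/-- Some Fermat quotient `(ℓ^(p-1) - 1) / p`, `ℓ ≤ y` a prime different from `p`, is not divisible
by `p`. -/
def NonVan (y : ℝ) (p : ℕ) : Prop :=
  ∃ ℓ : ℕ, ℓ.Prime ∧ ℓ ≠ p ∧ (ℓ : ℝ) ≤ y ∧ ¬ p ^ 2 ∣ ℓ ^ (p - 1) - 1

open Classical in
/-- The odd primes `p ≤ x` which satisfy both conditions for `y = (log p)^β`. -/
noncomputable def Good (β x : ℝ) : Finset ℕ :=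
  (Finset.Icc 1 ⌊x⌋₊).filter (fun p => p.Prime ∧ p ≠ 2 ∧
    PropP (Real.log p ^ β) p ∧ NonVan (Real.log p ^ β) p)

end Pool.Agent.FQ
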