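import Pool.Agent.FQ.Defs

/-!
# Fermat quotients and smooth numbers (for MP_bcc756_nt)
-/

set_option autoImplicit false

namespace Pool.Agent.FQ

theorem propP_of_nonVan {y : ℝ} {p : ℕ} (hp : p.Prime) (h : NonVan y p) : PropP y p := by
  obtain ⟨ℓ, hℓ, hne, hy, hnd⟩ := h
  have hcop : Nat.Coprime ℓ p := (Nat.coprime_primes hℓ hp).2 hne
  have h1 : ℓ ^ (p - 1) ≡ 1 [MOD p] := by
    have := Nat.ModEq.pow_totient hcop
    rwa [Nat.totient_prime hp] at this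
  have h2 : 1 ≤ ℓ ^ (p - 1) := Nat.one_le_pow _ _ hℓ.pos
  have h3 : p ∣ ℓ ^ (p - 1) - 1 := (Nat.modEq_iff_dvd' h2).1 h1.symm
  obtain ⟨k, hk⟩ := h3
  refine ⟨k, ℓ ^ (p - 1), 1, ?_, by omega, one_pos, ?_, ?_, ?_⟩
  · intro hd
    apply hnd
    have hd' : p ∣ k := by exact_mod_cast hd
    obtain ⟨j, hj⟩ := hd'
    exact ⟨j, by rw [hk, hj]; ring⟩
  · intro q hq hqa
    have := (Nat.prime_dvd_prime_iff_eq hq hℓ).1 (hq.dvd_of_dvd_pow hqa)
    rw [this]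
    exact hy
  · intro q hq hqb
    exact absurd (Nat.dvd_one.1 hqb) hq.one_lt.ne'
  · have h4 : ((ℓ ^ (p - 1) : ℕ) : ℤ) = ((p * k : ℕ) : ℤ) + 1 := by
      have : ℓ ^ (p - 1) = p * k + 1 := by omega
      exact_mod_cast this
    rw [h4]
    push_cast
    ring

/-- smooth numbers are Teichmueller elements -/
theorem pow_eq_one (z : ℕ) (p : ℕ) (hp : p.Prime)
    (h : ∀ ℓ : ℕ, ℓ.Prime → ℓ ≠ p → ℓ ≤ z → p ^ 2 ∣ ℓ ^ (p - 1) - 1) (c : ℕ) :
    c ≠ 0 → ¬ p ∣ c → (∀ q : ℕ, q.Prime → q ∣ c → q ≤ z) → c ^ (p - 1) ≡ 1 [MOD p ^ 2] := by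
  induction c using Nat.strong_induction_on with
  | _ c ih =>
    intro hc hpc hs
    by_cases h1 : c = 1
    · rw [h1, one_pow]
    · have hq := Nat.minFac_prime h1
      obtain ⟨d, hd⟩ := Nat.minFac_dvd c
      have hd0 : d ≠ 0 := by
        rintro rfl
        rw [mul_zero] at hd
        exact hc hd
      have hdc : d < c := by
        have := hq.two_le
        nlinarith [Nat.pos_of_ne_zero hd0]
      have hdd : d ∣ c := ⟨c.minFac, by rw [mul_comm]; exact hd⟩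
      have h2 := ih d hdc hd0 (fun hh => hpc (hh.trans hdd))
        (fun q hq' hqd => hs q hq' (hqd.trans hdd))
      have hne : c.minFac ≠ p := by
        intro heq
        apply hpc
        rw [← heq]
        exact Nat.minFac_dvd c
      have h3 := h c.minFac hq hne (hs _ hq (Nat.minFac_dvd c))
      have h4 : c.minFac ^ (p - 1) ≡ 1 [MOD p ^ 2] :=
        ((Nat.modEq_iff_dvd' (Nat.one_le_pow _ _ hq.pos)).2 h3).symm
      have h5 : c ^ (p - 1) = c.minFac ^ (p - 1) * d ^ (p - 1) := by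
        rw [← mul_pow, ← hd]
      rw [h5]
      simpa using h4.mul h2

theorem sq_dvd (z : ℕ) (p : ℕ) (hp : p.Prime)
    (h : ∀ ℓ : ℕ, ℓ.Prime → ℓ ≠ p → ℓ ≤ z → p ^ 2 ∣ ℓ ^ (p - 1) - 1) (a b : ℕ)
    (ha : a ≠ 0) (hb : b ≠ 0) (hab : Nat.Coprime a b) (hsa : ∀ q : ℕ, q.Prime → q ∣ a → q ≤ z)
    (hsb : ∀ q : ℕ, q.Prime → q ∣ b → q ≤ z) (hd : (p : ℤ) ∣ (a : ℤ) - b) :
    ((p : ℤ)) ^ 2 ∣ (a : ℤ) - b := by
  have hpa : ¬ p ∣ a := by
    intro h1
    have h2 : p ∣ b := by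
      have h3 : (p : ℤ) ∣ (b : ℤ) := by
        have h4 : (p : ℤ) ∣ (a : ℤ) := by exact_mod_cast h1
        have := dvd_sub h4 hd
        simpa using this
      exact_mod_cast h3
    have := Nat.dvd_gcd h1 h2
    rw [hab] at this
    exact hp.one_lt.ne' (Nat.dvd_one.1 this)
  have hpb : ¬ p ∣ b := by
    intro h1
    apply hpa
    have h3 : (p : ℤ) ∣ (a : ℤ) := by
      have h4 : (p : ℤ) ∣ (b : ℤ) := by exact_mod_cast h1
      have := dvd_add hd h4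
      simpa using this
    exact_mod_cast h3
  have key : ∀ c : ℕ, c ^ (p - 1) ≡ 1 [MOD p ^ 2] → (p : ℤ) ^ 2 ∣ (c : ℤ) ^ p - c := by
    intro c hc
    have h1 : c ^ p ≡ c [MOD p ^ 2] := by
      have h2 : c ^ p = c ^ (p - 1) * c := by
        rw [← pow_succ, Nat.sub_add_cancel hp.one_le]
      rw [h2]
      simpa using hc.mul_right c
    have h3 := (Nat.modEq_iff_dvd.1 h1.symm)
    push_cast at h3
    exact h3
  have h1 := key a (pow_eq_one z p hp h a ha hpa hsa)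
  have h2 := key b (pow_eq_one z p hp h b hb hpb hsb)
  have h3 := dvd_sub_pow_of_dvd_sub hd 1
  rw [pow_one] at h3
  have h4 : (a : ℤ) - b = ((a : ℤ) ^ p - (b : ℤ) ^ p) - ((a : ℤ) ^ p - a) + ((b : ℤ) ^ p - b) := by
    ring
  rw [h4]
  exact dvd_add (dvd_sub h3 h1) h2

end Pool.Agent.FQ
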