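import Pool.Agent.FQ.Step
import Pool.Agent.FQ.Quot
import Pool.Agent.Lib_helper91.Div

/-!
# Many primes with a small nonvanishing Fermat quotient (for MP_bcc756_nt)
-/

set_option autoImplicit false

open Finset Filter

namespace Pool.Agent.FQ

/-- four disjoint sets of primes -/
theorem primes4 (z L : ℕ) (h : 4 * L ≤ Nat.primeCounting z) : ∃ 𝓛 : Fin 4 → Finset ℕ,
    (∀ i, ∀ p ∈ 𝓛 i, p.Prime) ∧ (∀ i, ∀ p ∈ 𝓛 i, p ≤ z) ∧
    (∀ i j, i ≠ j → Disjoint (𝓛 i) (𝓛 j)) ∧ (∀ i, (𝓛 i).card = L) := by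
  have hinf : (Set.ofPred Nat.Prime).Infinite := Nat.infinite_setOfPred_prime
  have hinj := Nat.nth_injective hinf
  refine ⟨fun i => (range L).image (fun j => Nat.nth Nat.Prime (4 * j + i)), ?_, ?_, ?_, ?_⟩
  · intro i p hp
    rw [mem_image] at hp
    obtain ⟨j, _, rfl⟩ := hp
    exact Nat.nth_mem_of_infinite hinf _
  · intro i p hp
    rw [mem_image] at hp
    obtain ⟨j, hj, rfl⟩ := hp
    rw [mem_range] at hj
    have h1 : 4 * j + (i : ℕ) < Nat.count Nat.Prime (z + 1) := by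
      have h2 : Nat.count Nat.Prime (z + 1) = Nat.primeCounting z := rfl
      rw [h2]
      have := i.2
      omega
    have := Nat.nth_lt_of_lt_count h1
    omega
  · intro i j hij
    rw [Finset.disjoint_left]
    intro p hp hp'
    rw [mem_image] at hp hp'
    obtain ⟨a, _, ha⟩ := hp
    obtain ⟨b, _, hb⟩ := hp'
    have h1 := hinj (ha.trans hb.symm)
    apply hij
    apply Fin.ext
    have := i.2
    have := j.2
    omega
  · intro i
    rw [card_image_of_injective, card_range]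
    intro a b hab
    have := hinj hab
    omega

/-- Chebyshev -/
theorem ev_primes (ε : ℝ) (hε : 0 < ε) : ∀ᶠ z : ℕ in atTop,
    (z : ℝ) ^ (1 - ε) ≤ ((Nat.primeCounting z / 4 : ℕ) : ℝ) := by
  have h1 : ∀ᶠ x : ℝ in atTop, Real.log x ≤ 1 / 40 * x ^ ε := by
    have h := (isLittleO_log_rpow_atTop hε).bound (show (0 : ℝ) < 1 / 40 by norm_num)
    filter_upwards [h, eventually_ge_atTop (1 : ℝ)] with x hx hx1
    rwa [Real.norm_of_nonneg (Real.log_nonneg hx1),
      Real.norm_of_nonneg (Real.rpow_nonneg (by linarith) _)] at hx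
  have h2 : ∀ᶠ x : ℝ in atTop, Real.log x ≤ 1 / 40 * x := by
    have h := (isLittleO_log_rpow_atTop (show (0 : ℝ) < 1 by norm_num)).bound
      (show (0 : ℝ) < 1 / 40 by norm_num)
    filter_upwards [h, eventually_ge_atTop (1 : ℝ)] with x hx hx1
    rwa [Real.norm_of_nonneg (Real.log_nonneg hx1), Real.rpow_one,
      Real.norm_of_nonneg (by linarith)] at hx
  have h3 := tendsto_natCast_atTop_atTop (R := ℝ) |>.eventually (h1.and h2)
  filter_upwards [h3, eventually_ge_atTop 3] with z hz hz3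
  obtain ⟨hz1, hz2⟩ := hz
  have hz3' : (3 : ℝ) ≤ z := by exact_mod_cast hz3
  have hlog1 : 1 ≤ Real.log z := by
    rw [Real.le_log_iff_exp_le (by linarith)]
    have h1 := Real.exp_one_lt_d9
    linarith
  have hpi := Chebyshev.pi_ge z
  rw [div_le_iff₀ (by linarith)] at hpi
  have hlogz1 : Real.log ((z : ℝ) + 1) ≤ Real.log z + 1 := by
    have e1 : (z : ℝ) + 1 ≤ z * 2 := by linarith
    have e2 : Real.log ((z : ℝ) + 1) ≤ Real.log (z * 2) := Real.log_le_log (by linarith) e1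
    rw [Real.log_mul (by linarith) (by norm_num)] at e2
    have e3 := Real.log_two_lt_d9
    linarith
  have hpow : (z : ℝ) ^ (1 - ε) * (z : ℝ) ^ ε = z := by
    rw [← Real.rpow_add (by linarith)]
    simp
  have hpow0 : 0 < (z : ℝ) ^ (1 - ε) := Real.rpow_pos_of_pos (by linarith) _
  have hlog2 := Real.log_two_gt_d9
  -- (4 z^(1-ε) + 4) log z ≤ z log 2 - log (z+1)
  have hkey : (4 * (z : ℝ) ^ (1 - ε) + 4) * Real.log z ≤ z * Real.log 2 - Real.log ((z : ℝ) + 1) := by
    have e1 : (z : ℝ) ^ (1 - ε) * Real.log z ≤ 1 / 40 * z := by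
      calc (z : ℝ) ^ (1 - ε) * Real.log z ≤ (z : ℝ) ^ (1 - ε) * (1 / 40 * (z : ℝ) ^ ε) :=
            mul_le_mul_of_nonneg_left hz1 hpow0.le
        _ = 1 / 40 * ((z : ℝ) ^ (1 - ε) * (z : ℝ) ^ ε) := by ring
        _ = 1 / 40 * z := by rw [hpow]
    nlinarith
  have h4 : 4 * (z : ℝ) ^ (1 - ε) + 4 ≤ (Nat.primeCounting z : ℝ) := by
    have h5 := hkey.trans hpi
    exact le_of_mul_le_mul_right h5 (by linarith)
  have h6 : (Nat.primeCounting z : ℝ) ≤ 4 * ((Nat.primeCounting z / 4 : ℕ) : ℝ) + 3 := by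
    have : Nat.primeCounting z ≤ 4 * (Nat.primeCounting z / 4) + 3 := by omega
    exact_mod_cast this
  linarith

theorem ev_lin (A B D : ℝ) (hD : 0 < D) : ∀ᶠ y : ℝ in atTop, A + B * Real.log y < D * y := by
  have hB : 0 < |B| + 1 := by positivity
  have h1 := (isLittleO_log_rpow_atTop (show (0 : ℝ) < 1 by norm_num)).bound
    (show (0 : ℝ) < D / (2 * (|B| + 1)) by positivity)
  filter_upwards [h1, eventually_ge_atTop (1 : ℝ), eventually_gt_atTop (2 * A / D)]
    with y hy hy1 hy2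
  rw [Real.norm_of_nonneg (Real.log_nonneg hy1), Real.rpow_one,
    Real.norm_of_nonneg (by linarith)] at hy
  have hlog := Real.log_nonneg hy1
  have h2 : B * Real.log y ≤ D / 2 * y := by
    calc B * Real.log y ≤ (|B| + 1) * Real.log y := by
          apply mul_le_mul_of_nonneg_right _ hlog
          linarith [le_abs_self B]
      _ ≤ (|B| + 1) * (D / (2 * (|B| + 1)) * y) := mul_le_mul_of_nonneg_left hy hB.le
      _ = D / 2 * y := by
          field_simp
  have h3 : A < D / 2 * y := by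
    rw [div_lt_iff₀ hD] at hy2
    linarith
  linarith

theorem ev_pow (e D : ℝ) (he : e < 1) (hD : 0 < D) : ∀ᶠ y : ℝ in atTop, y ^ e ≤ D * y := by
  have h1 := (tendsto_rpow_neg_atTop (show 0 < 1 - e by linarith)).eventually
    (Iio_mem_nhds hD)
  filter_upwards [h1, eventually_gt_atTop (0 : ℝ)] with y hy hy0
  have h2 : y ^ e = y ^ (-(1 - e)) * y := by
    nth_rewrite 3 [← Real.rpow_one y]
    rw [← Real.rpow_add hy0]
    congr 1
    ring
  rw [h2]
  exact mul_le_mul_of_nonneg_right (le_of_lt hy) hy0.le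

/-- lower bound for the number of products, in logarithmic form -/
theorem choose_log (z L K m : ℕ) (γ ε : ℝ) (hz : 2 ≤ z) (hL : (z : ℝ) ^ (1 - ε) ≤ L)
    (hK : (K : ℝ) ≤ (z : ℝ) ^ γ) (hKL : K ≤ L) (hm : m ≤ K) :
    (1 - γ - ε) * m * Real.log z ≤ Real.log (L.choose m) ∧ 1 ≤ L.choose m := by
  have hch : 1 ≤ L.choose m := Nat.choose_pos (hm.trans hKL)
  refine ⟨?_, hch⟩
  have hz0 : (0 : ℝ) < z := by
    have : 0 < z := by omega
    exact_mod_cast this
  rcases Nat.eq_zero_or_pos m with h0 | h0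
  · subst h0
    simp
  · have h1 := choose_ge L m (hm.trans hKL)
    have hL0 : 0 < L := by omega
    have h2 : Real.log ((L : ℝ) ^ m) ≤ Real.log ((m : ℝ) ^ m * (L.choose m : ℝ)) := by
      apply Real.log_le_log
      · have : (0 : ℝ) < L := by exact_mod_cast hL0
        positivity
      · exact_mod_cast h1
    have hm0 : (0 : ℝ) < m := by exact_mod_cast h0
    have hch0 : (0 : ℝ) < (L.choose m : ℝ) := by exact_mod_cast hch
    rw [Real.log_pow, Real.log_mul (by positivity) hch0.ne', Real.log_pow] at h2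
    have h3 : (1 - ε) * Real.log z ≤ Real.log L := by
      rw [← Real.log_rpow hz0]
      exact Real.log_le_log (Real.rpow_pos_of_pos hz0 _) hL
    have h4 : Real.log m ≤ γ * Real.log z := by
      rw [← Real.log_rpow hz0]
      apply Real.log_le_log hm0
      refine le_trans ?_ hK
      exact_mod_cast hm
    have h5 : (m : ℝ) * ((1 - ε) * Real.log z) ≤ m * Real.log L :=
      mul_le_mul_of_nonneg_left h3 hm0.le
    have h6 : (m : ℝ) * Real.log m ≤ m * (γ * Real.log z) :=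
      mul_le_mul_of_nonneg_left h4 hm0.le
    nlinarith

theorem num1 (κ δ σ ℓ y K k₀ A : ℝ) (hκ0 : 0 < κ) (hκ1 : κ ≤ 8 / 100) (hδ : δ = κ / 80)
    (hσ1 : 1 / 5 ≤ σ) (hσ2 : σ ≤ 1) (hℓ : 2 ≤ ℓ) (hK : 0 ≤ K) (hy : y < (K + 1) * ℓ)
    (hk : κ / 8 * K - 1 < k₀) (hA : A + 2 * ℓ ≤ δ * y) : A + δ * y ≤ σ * k₀ * ℓ := by
  have h2 : σ * (κ / 8 * K - 1) * ℓ ≤ σ * k₀ * ℓ := by
    apply mul_le_mul_of_nonneg_right _ (by linarith)
    exact mul_le_mul_of_nonneg_left hk.le (by linarith)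
  have h4 : y - ℓ ≤ K * ℓ := by linarith
  have hKℓ : 0 ≤ K * ℓ := mul_nonneg hK (by linarith)
  have h5 : 1 / 5 * (κ / 8 * (K * ℓ)) ≤ σ * (κ / 8 * (K * ℓ)) := by
    apply mul_le_mul_of_nonneg_right hσ1
    positivity
  have h6 : σ * ℓ ≤ 1 * ℓ := mul_le_mul_of_nonneg_right hσ2 (by linarith)
  have h7 : κ / 40 * (y - ℓ) ≤ κ / 40 * (K * ℓ) :=
    mul_le_mul_of_nonneg_left h4 (by positivity)
  have h8 : κ / 40 * ℓ ≤ 1 * ℓ := mul_le_mul_of_nonneg_right (by linarith) (by linarith)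
  have h9 : δ * y + δ * y = κ / 40 * y := by rw [hδ]; ring
  have h10 : σ * (κ / 8 * K - 1) * ℓ = σ * (κ / 8 * (K * ℓ)) - σ * ℓ := by ring
  have h11 : 1 / 5 * (κ / 8 * (K * ℓ)) = κ / 40 * (K * ℓ) := by ring
  have h12 : κ / 40 * (y - ℓ) = κ / 40 * y - κ / 40 * ℓ := by ring
  linarith

theorem num2 (κ σ lR lC lt lS lV a b : ℝ) (hσ : σ = 5 * κ + 3 * κ + κ + 1 / 5)
    (h1 : σ * lR ≤ a + b) (h2 : a + b ≤ Real.log 64 + 3 * lt + lS + lV)
    (h3 : lt ≤ lC + κ * lR) (h4 : lS ≤ κ * lR) (h5 : lV ≤ 1 / 5 * lR) :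
    5 * κ * lR ≤ Real.log 64 + 3 * lC := by
  have h6 : σ * lR = 5 * κ * lR + 3 * (κ * lR) + κ * lR + 1 / 5 * lR := by rw [hσ]; ring
  linarith

theorem main (β : ℝ) (hβ : 5 / 4 < β) : ∃ δ : ℝ, 0 < δ ∧ ∃ x₀ : ℝ, ∀ x : ℝ, x₀ ≤ x →
    x ^ δ ≤ ((Good β x).card : ℝ) := by
  classical
  have hβ0 : 0 < β := by linarith
  -- parameters
  obtain ⟨γ, hγ1, hγ2⟩ : ∃ γ : ℝ, 1 / β < γ ∧ γ < 4 / 5 := by
    apply _root_.exists_between
    rw [div_lt_div_iff₀ hβ0 (by norm_num)]
    linarith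
  have hγ0 : 0 < γ := lt_trans (by positivity) hγ1
  set κ : ℝ := (4 / 5 - γ) / 10 with hκ
  have hκ0 : 0 < κ := by rw [hκ]; linarith
  have hκ1 : κ ≤ 8 / 100 := by rw [hκ]; linarith
  set δ : ℝ := κ / 80 with hδ
  have hδ0 : 0 < δ := by rw [hδ]; linarith
  set σ : ℝ := 1 - γ - κ with hσ
  have hσ1 : 1 / 5 ≤ σ := by rw [hσ, hκ]; linarith
  have hσ2 : σ ≤ 1 := by rw [hσ]; linarith
  have hσe : σ = 5 * κ + 3 * κ + κ + 1 / 5 := by rw [hσ, hκ]; ring
  -- divisor bound
  obtain ⟨M, hM⟩ := exists_nat_gt (1 / κ)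
  have hM0 : 0 < M := by
    have h1 : (0 : ℝ) < M := lt_trans (by positivity) hM
    exact_mod_cast h1
  have hMκ : 1 / (M : ℝ) ≤ κ := by
    rw [div_le_iff₀ (by exact_mod_cast hM0)]
    rw [div_lt_iff₀ hκ0] at hM
    linarith
  obtain ⟨C, hC1, hC⟩ := Lib_helper91.exists_divisor_bound M hM0
  -- conditions on `z`
  have hzlim : Tendsto (fun x : ℝ => ⌊(Real.log x) ^ (1 / γ)⌋₊) atTop atTop :=
    tendsto_nat_floor_atTop.comp ((tendsto_rpow_atTop (by positivity)).comp
      Real.tendsto_log_atTop)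
  have e1 := hzlim.eventually ((ev_primes κ hκ0).and (eventually_ge_atTop 8))
  have hγβ : 1 / (γ * β) < 1 := by
    rw [div_lt_one (by positivity)]
    rw [div_lt_iff₀ hβ0] at hγ1
    exact hγ1
  have e2 := Real.tendsto_log_atTop.eventually ((ev_pow (1 / (γ * β)) δ hγβ hδ0).and
    ((ev_lin (Real.log (16 / κ)) (2 / γ) δ hδ0).and
      (ev_lin (Real.log 64 + 3 * Real.log C) (5 * κ / γ) (5 * κ) (by positivity))))
  have e3 := (e1.and e2).and (eventually_ge_atTop (1 : ℝ))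
  obtain ⟨x₀, hx₀⟩ := eventually_atTop.1 e3
  refine ⟨δ, hδ0, x₀, ?_⟩
  intro x hx
  obtain ⟨⟨⟨hz1, hz8⟩, hc2, hc3, hc4⟩, hx1⟩ := hx₀ x hx
  by_contra hcon
  push Not at hcon
  have hx0 : 0 < x := by linarith
  set y : ℝ := Real.log x with hy
  set z : ℕ := ⌊y ^ (1 / γ)⌋₊ with hz
  have hz0 : (0 : ℝ) < z := by
    have : 0 < z := by omega
    exact_mod_cast this
  have hy0 : 0 ≤ y := Real.log_nonneg hx1
  set ℓ : ℝ := Real.log z with hℓ
  have hz8' : (8 : ℝ) ≤ z := by exact_mod_cast hz8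
  have hℓ2 : 2 ≤ ℓ := by
    have h1 : Real.log 8 ≤ ℓ := Real.log_le_log (by norm_num) hz8'
    have h2 : Real.log 8 = 3 * Real.log 2 := by
      rw [show (8 : ℝ) = 2 ^ (3 : ℕ) by norm_num, Real.log_pow]
      norm_num
    have h3 := Real.log_two_gt_d9
    linarith
  have hzy : (z : ℝ) ≤ y ^ (1 / γ) := Nat.floor_le (Real.rpow_nonneg hy0 _)
  have hypos : 0 < y := by
    rcases hy0.eq_or_lt with h | h
    · rw [← h, Real.zero_rpow (by positivity)] at hzy
      linarith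
    · exact h
  have hℓy : ℓ ≤ 1 / γ * Real.log y := by
    rw [← Real.log_rpow hypos]
    exact Real.log_le_log hz0 hzy
  have c3 : Real.log (16 / κ) + 2 * ℓ ≤ δ * y := by
    have h1 : 2 * ℓ ≤ 2 / γ * Real.log y := by
      calc 2 * ℓ ≤ 2 * (1 / γ * Real.log y) := by linarith
        _ = 2 / γ * Real.log y := by ring
    linarith
  have c4 : Real.log 64 + 3 * Real.log C + 5 * κ * ℓ < 5 * κ * y := by
    have h1 : 5 * κ * ℓ ≤ 5 * κ / γ * Real.log y := by
      calc 5 * κ * ℓ ≤ 5 * κ * (1 / γ * Real.log y) :=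
            mul_le_mul_of_nonneg_left hℓy (by positivity)
        _ = 5 * κ / γ * Real.log y := by ring
    linarith
  have c2 : (z : ℝ) ^ (1 / β) ≤ δ * y := by
    refine le_trans ?_ hc2
    calc (z : ℝ) ^ (1 / β) ≤ (y ^ (1 / γ)) ^ (1 / β) :=
          Real.rpow_le_rpow hz0.le hzy (by positivity)
      _ = y ^ (1 / (γ * β)) := by
          rw [← Real.rpow_mul hy0]
          congr 1
          field_simp
  -- `K` and `R`
  set X : ℕ := ⌊x⌋₊ with hX
  have hX0 : X ≠ 0 := by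
    have : 1 ≤ X := Nat.le_floor (by exact_mod_cast hx1)
    omega
  set K : ℕ := Nat.log z X with hK
  set R : ℕ := z ^ K with hR
  have hRX : R ≤ X := Nat.pow_log_le_self z hX0
  have hXx : (X : ℝ) ≤ x := Nat.floor_le hx0.le
  have hxK : y < (K + 1) * ℓ := by
    have h1 : X < z ^ (K + 1) := Nat.lt_pow_succ_log_self (by omega) X
    have h2 : x < (z : ℝ) ^ (K + 1) := by
      have := (Nat.floor_lt hx0.le).1 h1
      exact_mod_cast this
    have h3 : Real.log x < Real.log ((z : ℝ) ^ (K + 1)) := Real.log_lt_log hx0 h2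
    rw [Real.log_pow] at h3
    push_cast at h3
    exact h3
  have hKx : K * ℓ ≤ y := by
    have h2 : ((z : ℝ) ^ K) ≤ x := by
      refine le_trans ?_ hXx
      exact_mod_cast hRX
    have h3 : Real.log ((z : ℝ) ^ K) ≤ Real.log x := Real.log_le_log (by positivity) h2
    rwa [Real.log_pow] at h3
  have hK1 : 1 ≤ K := by
    by_contra h0
    have h0 : K = 0 := by omega
    rw [h0] at hxK
    have h1 : 5 * κ * y < 5 * κ * ℓ := by
      apply mul_lt_mul_of_pos_left _ (by positivity)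
      simpa using hxK
    have h2 : 0 ≤ Real.log 64 := Real.log_nonneg (by norm_num)
    have h3 : 0 ≤ Real.log C := Real.log_nonneg hC1
    linarith
  have hKγ : (K : ℝ) ≤ (z : ℝ) ^ γ := by
    have h1 : y < ((z : ℝ) + 1) ^ γ := by
      have h2 : y ^ (1 / γ) < (z : ℝ) + 1 := Nat.lt_floor_add_one _
      have h3 : (y ^ (1 / γ)) ^ γ < ((z : ℝ) + 1) ^ γ :=
        Real.rpow_lt_rpow (Real.rpow_nonneg hy0 _) h2 hγ0
      rw [← Real.rpow_mul hy0, one_div_mul_cancel hγ0.ne', Real.rpow_one] at h3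
      exact h3
    have h4 : ((z : ℝ) + 1) ^ γ ≤ 2 * (z : ℝ) ^ γ := by
      calc ((z : ℝ) + 1) ^ γ ≤ (2 * (z : ℝ)) ^ γ :=
            Real.rpow_le_rpow (by linarith) (by linarith) hγ0.le
        _ = (2 : ℝ) ^ γ * (z : ℝ) ^ γ := Real.mul_rpow (by norm_num) hz0.le
        _ ≤ (2 : ℝ) ^ (1 : ℝ) * (z : ℝ) ^ γ := by
            apply mul_le_mul_of_nonneg_right _ (Real.rpow_nonneg hz0.le _)
            exact Real.rpow_le_rpow_of_exponent_le (by norm_num) (by linarith)
        _ = 2 * (z : ℝ) ^ γ := by rw [Real.rpow_one]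
    have h5 : (K : ℝ) * 2 ≤ K * ℓ := mul_le_mul_of_nonneg_left hℓ2 (Nat.cast_nonneg K)
    linarith
  set L : ℕ := Nat.primeCounting z / 4 with hL
  have hKL : K ≤ L := by
    have h1 : (z : ℝ) ^ γ ≤ (z : ℝ) ^ (1 - κ) :=
      Real.rpow_le_rpow_of_exponent_le (by linarith) (by rw [hκ]; linarith)
    have h2 : (K : ℝ) ≤ L := (hKγ.trans h1).trans hz1
    exact_mod_cast h2
  set k₀ : ℕ := ⌊κ / 8 * (K : ℝ)⌋₊ with hk₀
  have hk₀le : (k₀ : ℝ) ≤ κ / 8 * K := Nat.floor_le (by positivity)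
  have hk₀ge : κ / 8 * K - 1 < k₀ := by
    have := Nat.lt_floor_add_one (κ / 8 * (K : ℝ))
    linarith
  have hk₀K : k₀ ≤ K := by
    have h1 : (k₀ : ℝ) ≤ K := by
      refine hk₀le.trans ?_
      have h2 : κ / 8 * (K : ℝ) ≤ 1 * K :=
        mul_le_mul_of_nonneg_right (by linarith) (Nat.cast_nonneg K)
      linarith
    exact_mod_cast h1
  obtain ⟨k₁, hk₁⟩ := Nat.exists_eq_add_of_le hk₀K
  have hk₁K : k₁ ≤ K := by omega
  obtain ⟨hl0, hp0⟩ := choose_log z L K k₀ γ κ (by omega) hz1 hKγ hKL hk₀K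
  obtain ⟨hl1, hp1⟩ := choose_log z L K k₁ γ κ (by omega) hz1 hKγ hKL hk₁K
  rw [← hσ, ← hℓ] at hl0 hl1
  have hKr : (K : ℝ) = k₀ + k₁ := by rw [hk₁]; push_cast; ring
  have hlogR : Real.log R = K * ℓ := by
    rw [hR]
    push_cast
    rw [Real.log_pow]
  have hlogR2 : y - ℓ ≤ Real.log R := by
    rw [hlogR]
    linarith
  have hR0 : 0 < R := Nat.pow_pos (by omega)
  have hR0' : (0 : ℝ) < R := by exact_mod_cast hR0
  have hR1' : (1 : ℝ) ≤ R := by exact_mod_cast hR0
  -- the exceptional primes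
  set T : ℝ := Real.exp ((z : ℝ) ^ (1 / β)) with hT
  have hTx : T ≤ x ^ δ := by
    rw [hT, Real.rpow_def_of_pos hx0]
    apply Real.exp_le_exp.2
    rw [← hy]
    linarith
  set Q : Finset ℕ := (Icc 1 ⌊T⌋₊).filter Nat.Prime ∪ Good β x with hQ
  have hQp : ∀ p ∈ Q, p.Prime := by
    intro p hp
    rw [hQ, mem_union] at hp
    rcases hp with hp | hp
    · exact (mem_filter.1 hp).2
    · unfold Good at hp
      exact (mem_filter.1 hp).2.1
  have hQc : (Q.card : ℝ) ≤ 2 * x ^ δ := by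
    have h1 : Q.card ≤ ⌊T⌋₊ + (Good β x).card := by
      refine (card_union_le _ _).trans ?_
      apply Nat.add_le_add_right
      refine (card_filter_le _ _).trans ?_
      rw [Nat.card_Icc, Nat.add_sub_cancel]
    have h2 : (Q.card : ℝ) ≤ (⌊T⌋₊ : ℝ) + ((Good β x).card : ℝ) := by exact_mod_cast h1
    have h3 : (⌊T⌋₊ : ℝ) ≤ T := Nat.floor_le (Real.exp_pos _).le
    linarith
  have hQU : (Q.card : ℝ) ≤ κ / 8 * (L.choose k₀ : ℝ) := by
    have h1 : Real.log (16 / κ) + δ * y ≤ σ * k₀ * ℓ :=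
      num1 κ δ σ ℓ y K k₀ _ hκ0 hκ1 hδ hσ1 hσ2 hℓ2 (Nat.cast_nonneg K) hxK hk₀ge c3
    have h2 : 16 / κ * x ^ δ ≤ (L.choose k₀ : ℝ) := by
      have h3 : (0 : ℝ) < (L.choose k₀ : ℝ) := by exact_mod_cast hp0
      rw [← Real.exp_log h3, Real.rpow_def_of_pos hx0, ← Real.exp_log (show 0 < 16 / κ by positivity),
        ← Real.exp_add]
      apply Real.exp_le_exp.2
      rw [← hy]
      linarith
    calc (Q.card : ℝ) ≤ 2 * x ^ δ := hQc
      _ = κ / 8 * (16 / κ * x ^ δ) := by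
          field_simp
          ring
      _ ≤ κ / 8 * (L.choose k₀ : ℝ) := mul_le_mul_of_nonneg_left h2 (by positivity)
  -- bounds
  set S : ℕ := ⌊(R : ℝ) ^ κ⌋₊ with hS
  set V : ℕ := ⌊(R : ℝ) ^ (1 / 5 : ℝ)⌋₊ with hV
  set t : ℕ := ⌊C * (R : ℝ) ^ ((1 : ℝ) / M)⌋₊ with ht
  have hSle : (S : ℝ) ≤ (R : ℝ) ^ κ := Nat.floor_le (Real.rpow_nonneg hR0'.le _)
  have hVle : (V : ℝ) ≤ (R : ℝ) ^ (1 / 5 : ℝ) := Nat.floor_le (Real.rpow_nonneg hR0'.le _)
  have htle : (t : ℝ) ≤ C * (R : ℝ) ^ ((1 : ℝ) / M) := Nat.floor_le (by positivity)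
  obtain ⟨𝓛, hL1, hL2, hL3, hL4⟩ := primes4 z L (by rw [hL]; omega)
  have hfin := step z L k₀ k₁ S V t R κ Q 𝓛 (by rw [hR, hk₁]) hL1 hL2 hL3 hL4 (by omega)
    (by omega) hQp
    (by
      apply Nat.le_floor
      have h1 : (1 : ℝ) ≤ (R : ℝ) ^ ((1 : ℝ) / M) := Real.one_le_rpow hR1' (by positivity)
      have h2 : (1 : ℝ) * 1 ≤ C * (R : ℝ) ^ ((1 : ℝ) / M) :=
        mul_le_mul hC1 h1 zero_le_one (by linarith)
      rw [Nat.cast_one]
      linarith)
    (by
      intro m hm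
      rcases Nat.eq_zero_or_pos m with h0 | h0
      · subst h0
        simp
      · apply Nat.le_floor
        refine (hC m (by omega)).trans ?_
        apply mul_le_mul_of_nonneg_left _ (by linarith)
        exact Real.rpow_le_rpow (Nat.cast_nonneg m) (by exact_mod_cast hm) (by positivity))
    (by
      intro s hs
      apply Nat.le_floor
      rcases Nat.eq_zero_or_pos s with h0 | h0
      · subst h0
        simpa using Real.rpow_nonneg hR0'.le κ
      · have h1 : (0 : ℝ) < s := by exact_mod_cast h0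
        rw [← Real.exp_log h1, Real.rpow_def_of_pos hR0']
        apply Real.exp_le_exp.2
        linarith)
    (by
      intro v hv
      apply Nat.le_floor
      have h1 : ((v : ℝ) ^ (5 : ℕ)) ≤ (R : ℝ) := by exact_mod_cast hv
      have h2 : (v : ℝ) = ((v : ℝ) ^ (5 : ℕ)) ^ (1 / 5 : ℝ) := by
        rw [← Real.rpow_natCast, ← Real.rpow_mul (Nat.cast_nonneg v)]
        norm_num
      rw [h2]
      exact Real.rpow_le_rpow (by positivity) h1 (by norm_num))
    (by
      have h1 : (V : ℝ) ≤ R := by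
        refine hVle.trans ?_
        calc (R : ℝ) ^ (1 / 5 : ℝ) ≤ (R : ℝ) ^ (1 : ℝ) :=
              Real.rpow_le_rpow_of_exponent_le hR1' (by norm_num)
          _ = R := Real.rpow_one _
      exact_mod_cast h1)
    hκ0 (by rw [← hKr]; exact hk₀le) hQU
    (by
      intro a b ha hb hcab hsa hsb p hp hpQ hpR hpd
      by_contra hnd
      have hpT : T < p := by
        by_contra hc
        push Not at hc
        apply hpQ
        rw [hQ, mem_union]
        left
        rw [mem_filter, mem_Icc]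
        exact ⟨⟨hp.one_le, Nat.le_floor hc⟩, hp⟩
      have hlogp : (z : ℝ) ^ (1 / β) < Real.log p := by
        rw [Real.lt_log_iff_exp_lt (by exact_mod_cast hp.pos)]
        exact hpT
      have hzp : (z : ℝ) ≤ Real.log p ^ β := by
        have h1 : ((z : ℝ) ^ (1 / β)) ^ β < Real.log p ^ β :=
          Real.rpow_lt_rpow (Real.rpow_nonneg hz0.le _) hlogp hβ0
        rw [← Real.rpow_mul hz0.le, one_div_mul_cancel hβ0.ne', Real.rpow_one] at h1
        exact h1.le
      have hp2 : p ≠ 2 := by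
        rintro rfl
        have h1 : (2 : ℝ) < T := by
          have h2 : (1 : ℝ) ≤ (z : ℝ) ^ (1 / β) := Real.one_le_rpow (by linarith) (by positivity)
          have h3 : Real.exp 1 ≤ T := Real.exp_le_exp.2 h2
          have h4 := Real.exp_one_gt_d9
          linarith
        push_cast at hpT
        linarith
      have hnv : ¬ NonVan (Real.log p ^ β) p := by
        intro hnv
        apply hpQ
        rw [hQ, mem_union]
        right
        unfold Good
        rw [mem_filter, mem_Icc]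
        exact ⟨⟨hp.one_le, hpR.trans hRX⟩, hp, hp2, propP_of_nonVan hp hnv, hnv⟩
      have hall : ∀ ℓ : ℕ, ℓ.Prime → ℓ ≠ p → ℓ ≤ z → p ^ 2 ∣ ℓ ^ (p - 1) - 1 := by
        intro ℓ hℓ hne hle
        by_contra hc
        apply hnv
        refine ⟨ℓ, hℓ, hne, ?_, hc⟩
        refine le_trans ?_ hzp
        exact_mod_cast hle
      have h1 : (p : ℤ) ∣ (a : ℤ) - b := by
        unfold dst at hpd
        exact Int.natCast_dvd.2 hpd
      have h2 := sq_dvd z p hp hall a b ha hb hcab hsa hsb h1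
      apply hnd
      unfold dst
      rw [← Int.natCast_dvd]
      push_cast
      exact h2)
  -- conclusion
  have hpos : 0 < L.choose k₀ * L.choose k₁ := Nat.mul_pos hp0 hp1
  have hpos2 : 0 < 64 * t ^ 3 * S * V := lt_of_lt_of_le hpos hfin
  have ht0 : 0 < t := by
    rcases Nat.eq_zero_or_pos t with h | h
    · rw [h] at hpos2
      simp at hpos2
    · exact h
  have hS0 : 0 < S := by
    rcases Nat.eq_zero_or_pos S with h | h
    · rw [h] at hpos2
      simp at hpos2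
    · exact h
  have hV0 : 0 < V := by
    rcases Nat.eq_zero_or_pos V with h | h
    · rw [h] at hpos2
      simp at hpos2
    · exact h
  have ht0' : (0 : ℝ) < t := by exact_mod_cast ht0
  have hS0' : (0 : ℝ) < S := by exact_mod_cast hS0
  have hV0' : (0 : ℝ) < V := by exact_mod_cast hV0
  have hfin' : ((L.choose k₀ : ℝ)) * (L.choose k₁ : ℝ) ≤ 64 * (t : ℝ) ^ 3 * S * V := by
    exact_mod_cast hfin
  have hc0 : (0 : ℝ) < (L.choose k₀ : ℝ) := by exact_mod_cast hp0
  have hc1 : (0 : ℝ) < (L.choose k₁ : ℝ) := by exact_mod_cast hp1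
  have hlog := Real.log_le_log (mul_pos hc0 hc1) hfin'
  rw [Real.log_mul hc0.ne' hc1.ne', Real.log_mul (by positivity) hV0'.ne',
    Real.log_mul (by positivity) hS0'.ne', Real.log_mul (by norm_num) (by positivity),
    Real.log_pow] at hlog
  have hlt : Real.log t ≤ Real.log C + κ * Real.log R := by
    have h1 := Real.log_le_log ht0' htle
    rw [Real.log_mul (by linarith) (by positivity), Real.log_rpow hR0'] at h1
    have h2 : 1 / (M : ℝ) * Real.log R ≤ κ * Real.log R :=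
      mul_le_mul_of_nonneg_right hMκ (Real.log_nonneg hR1')
    linarith
  have hlS : Real.log S ≤ κ * Real.log R := by
    have h1 := Real.log_le_log hS0' hSle
    rwa [Real.log_rpow hR0'] at h1
  have hlV : Real.log V ≤ 1 / 5 * Real.log R := by
    have h1 := Real.log_le_log hV0' hVle
    rwa [Real.log_rpow hR0'] at h1
  have hsum : σ * Real.log R ≤ Real.log (L.choose k₀) + Real.log (L.choose k₁) := by
    rw [hlogR, hKr]
    linarith
  have hlog' : Real.log (L.choose k₀) + Real.log (L.choose k₁) ≤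
      Real.log 64 + 3 * Real.log t + Real.log S + Real.log V := by
    push_cast at hlog
    linarith
  have h1 := num2 κ σ _ _ _ _ _ _ _ hσe hsum hlog' hlt hlS hlV
  have h2 : 5 * κ * (y - ℓ) ≤ 5 * κ * Real.log R :=
    mul_le_mul_of_nonneg_left hlogR2 (by positivity)
  have h3 : 5 * κ * (y - ℓ) = 5 * κ * y - 5 * κ * ℓ := by ring
  linarith

end Pool.Agent.FQ
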