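import Mathlib

/-!
# Powerful numbers (for MP_bcc756_nt)

A number `w` all of whose prime factors occur with exponent at least `2` can be written as
`v ^ 3 * u ^ 2` and as `f * g ^ 2 * r ^ 3` with `v ^ 3 * (f * g) ^ 2 ≤ w`.
-/

set_option autoImplicit false

namespace Pool.Agent.FQ

theorem pow_decomp_prime (p n : ℕ) (hp : 1 ≤ p) (hn : 2 ≤ n) :
    ∃ v u f g r : ℕ, p ^ n = v ^ 3 * u ^ 2 ∧ p ^ n = f * g ^ 2 * r ^ 3 ∧
      v ^ 3 * (f * g) ^ 2 ≤ p ^ n := by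
  obtain ⟨a, b, c, d, e, h1, h2, h3⟩ : ∃ a b c d e : ℕ, n = 3 * a + 2 * b ∧
      n = c + 2 * d + 3 * e ∧ 3 * a + 2 * (c + d) ≤ n := by
    refine ⟨n % 2, (n - 3 * (n % 2)) / 2, if n % 3 = 1 then 1 else 0,
      if n % 3 = 2 then 1 else 0, n / 3, ?_, ?_, ?_⟩
    · omega
    · split_ifs <;> omega
    · split_ifs <;> omega
  refine ⟨p ^ a, p ^ b, p ^ c, p ^ d, p ^ e, ?_, ?_, ?_⟩
  · rw [← pow_mul, ← pow_mul, ← pow_add]
    congr 1
    omega
  · rw [← pow_mul, ← pow_mul, ← pow_add, ← pow_add]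
    congr 1
    omega
  · rw [← pow_mul, ← pow_add, ← pow_mul, ← pow_add]
    apply Nat.pow_le_pow_right hp
    omega

theorem pow_decomp (w : ℕ) (hw : w ≠ 0) (h : ∀ p : ℕ, p.Prime → p ∣ w → p ^ 2 ∣ w) :
    ∃ v u f g r : ℕ, w = v ^ 3 * u ^ 2 ∧ w = f * g ^ 2 * r ^ 3 ∧ v ^ 3 * (f * g) ^ 2 ≤ w := by
  induction w using Nat.recOnPosPrimePosCoprime with
  | prime_pow p n hp hn =>
    have h1 := h p hp (dvd_pow_self p hn.ne')
    have h2 : 2 ≤ n := (Nat.pow_dvd_pow_iff_le_right hp.one_lt).1 h1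
    exact pow_decomp_prime p n hp.one_le h2
  | zero => exact absurd rfl hw
  | one => exact ⟨1, 1, 1, 1, 1, by norm_num, by norm_num, by norm_num⟩
  | coprime a b ha hb hab iha ihb =>
    have key : ∀ x y : ℕ, x.Coprime y → (∀ p : ℕ, p.Prime → p ∣ x * y → p ^ 2 ∣ x * y) →
        ∀ p : ℕ, p.Prime → p ∣ x → p ^ 2 ∣ x := by
      intro x y hxy hh p hp hpx
      have h1 := hh p hp (hpx.mul_right y)
      have h2 : Nat.Coprime (p ^ 2) y := by
        apply Nat.Coprime.pow_left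
        exact Nat.Coprime.coprime_dvd_left hpx hxy
      exact h2.dvd_of_dvd_mul_right h1
    obtain ⟨v, u, f, g, r, e1, e2, e3⟩ := iha (by omega) (key a b hab h)
    obtain ⟨v', u', f', g', r', e1', e2', e3'⟩ := ihb (by omega)
      (key b a hab.symm (by rwa [mul_comm]))
    refine ⟨v * v', u * u', f * f', g * g', r * r', ?_, ?_, ?_⟩
    · calc a * b = (v ^ 3 * u ^ 2) * (v' ^ 3 * u' ^ 2) := by rw [← e1, ← e1']
        _ = _ := by ring
    · calc a * b = (f * g ^ 2 * r ^ 3) * (f' * g' ^ 2 * r' ^ 3) := by rw [← e2, ← e2']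
        _ = _ := by ring
    · calc (v * v') ^ 3 * (f * f' * (g * g')) ^ 2
          = (v ^ 3 * (f * g) ^ 2) * (v' ^ 3 * (f' * g') ^ 2) := by ring
        _ ≤ a * b := Nat.mul_le_mul e3 e3'

/-- one of the two cofactors is at most the fifth root -/
theorem pow_decomp_cases (w R : ℕ) (hw : w ≠ 0) (hR : w ≤ R)
    (h : ∀ p : ℕ, p.Prime → p ∣ w → p ^ 2 ∣ w) :
    (∃ v u : ℕ, w = v ^ 3 * u ^ 2 ∧ v ^ 5 ≤ R) ∨
      ∃ f g r : ℕ, w = f * g ^ 2 * r ^ 3 ∧ (f * g) ^ 5 ≤ R := by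
  obtain ⟨v, u, f, g, r, e1, e2, e3⟩ := pow_decomp w hw h
  by_cases hv : v ^ 5 ≤ R
  · exact Or.inl ⟨v, u, e1, hv⟩
  · right
    refine ⟨f, g, r, e2, ?_⟩
    by_contra hc
    push Not at hv hc
    have h1 : (v ^ 3 * (f * g) ^ 2) ^ 5 ≤ R ^ 5 := Nat.pow_le_pow_left (e3.trans hR) 5
    have h2 : R ^ 5 < (v ^ 3 * (f * g) ^ 2) ^ 5 := by
      calc R ^ 5 = R ^ 3 * R ^ 2 := by ring
        _ < (v ^ 5) ^ 3 * ((f * g) ^ 5) ^ 2 := by
            apply Nat.mul_lt_mul_of_lt_of_le (Nat.pow_lt_pow_left hv (by norm_num))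
              (Nat.pow_le_pow_left hc.le 2)
            have : 0 < (f * g) ^ 5 := by omega
            positivity
        _ = _ := by ring
    omega

end Pool.Agent.FQ
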