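import Pool.Agent.FQ.Core

/-!
# The sets of smooth numbers (for MP_bcc756_nt)
-/

set_option autoImplicit false

open Finset

namespace Pool.Agent.FQ

/-- products of `m` different elements of `𝓛` -/
def prods (𝓛 : Finset ℕ) (m : ℕ) : Finset ℕ := (𝓛.powersetCard m).image (fun s => ∏ p ∈ s, p)

theorem prods_injOn {𝓛 : Finset ℕ} (h : ∀ p ∈ 𝓛, p.Prime) :
    Set.InjOn (fun s : Finset ℕ => ∏ p ∈ s, p) {s | s ⊆ 𝓛} := by
  intro s hs t ht hst
  have h1 := Nat.primeFactors_prod (s := s) (fun p hp => h p (hs hp))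
  have h2 := Nat.primeFactors_prod (s := t) (fun p hp => h p (ht hp))
  simp only at hst
  rw [← h1, hst, h2]

theorem card_prods {𝓛 : Finset ℕ} (h : ∀ p ∈ 𝓛, p.Prime) (m : ℕ) :
    (prods 𝓛 m).card = 𝓛.card.choose m := by
  unfold prods
  rw [card_image_of_injOn, card_powersetCard]
  intro s hs t ht hst
  rw [mem_coe, mem_powersetCard] at hs ht
  exact prods_injOn h hs.1 ht.1 hst

theorem prods_le {𝓛 : Finset ℕ} {z : ℕ} (hz : ∀ p ∈ 𝓛, p ≤ z) {m a : ℕ}
    (ha : a ∈ prods 𝓛 m) : a ≤ z ^ m := by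
  unfold prods at ha
  rw [mem_image] at ha
  obtain ⟨s, hs, rfl⟩ := ha
  rw [mem_powersetCard] at hs
  rw [← hs.2]
  exact prod_le_pow_card _ _ _ (fun p hp => hz p (hs.1 hp))

theorem prods_ne_zero {𝓛 : Finset ℕ} (h : ∀ p ∈ 𝓛, p.Prime) {m a : ℕ} (ha : a ∈ prods 𝓛 m) :
    a ≠ 0 := by
  unfold prods at ha
  rw [mem_image] at ha
  obtain ⟨s, hs, rfl⟩ := ha
  rw [mem_powersetCard] at hs
  rw [prod_ne_zero_iff]
  intro p hp
  exact (h p (hs.1 hp)).ne_zero

theorem prods_primeFactors {𝓛 : Finset ℕ} (h : ∀ p ∈ 𝓛, p.Prime) {m a : ℕ}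
    (ha : a ∈ prods 𝓛 m) : a.primeFactors ⊆ 𝓛 ∧ a.primeFactors.card = m := by
  unfold prods at ha
  rw [mem_image] at ha
  obtain ⟨s, hs, rfl⟩ := ha
  rw [mem_powersetCard] at hs
  rw [Nat.primeFactors_prod (fun p hp => h p (hs.1 hp))]
  exact hs

theorem coprime_of_subset {𝓛 𝓛' : Finset ℕ} (hd : Disjoint 𝓛 𝓛') {a b : ℕ} (ha : a ≠ 0)
    (hb : b ≠ 0) (h1 : a.primeFactors ⊆ 𝓛) (h2 : b.primeFactors ⊆ 𝓛') : Nat.Coprime a b := by
  rw [← Nat.disjoint_primeFactors ha hb]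
  exact disjoint_of_subset_left h1 (disjoint_of_subset_right h2 hd)

/-- products `u v` -/
def prods2 (U V : Finset ℕ) : Finset ℕ := (U ×ˢ V).image (fun q => q.1 * q.2)

theorem prods2_injOn {𝓛 𝓛' : Finset ℕ} (h : ∀ p ∈ 𝓛, p.Prime) (h' : ∀ p ∈ 𝓛', p.Prime)
    (hd : Disjoint 𝓛 𝓛') (m m' : ℕ) :
    Set.InjOn (fun q : ℕ × ℕ => q.1 * q.2) (prods 𝓛 m ×ˢ prods 𝓛' m' : Finset (ℕ × ℕ)) := by
  rintro ⟨u, v⟩ hq ⟨u', v'⟩ hq' heq
  rw [mem_coe, mem_product] at hq hq'
  simp only at heq hq hq'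
  have hu := prods_ne_zero h hq.1
  have hu' := prods_ne_zero h hq'.1
  have hv := prods_ne_zero h' hq.2
  have hv' := prods_ne_zero h' hq'.2
  have c1 : Nat.Coprime u v' := coprime_of_subset hd hu hv' (prods_primeFactors h hq.1).1
    (prods_primeFactors h' hq'.2).1
  have c2 : Nat.Coprime u' v := coprime_of_subset hd hu' hv (prods_primeFactors h hq'.1).1
    (prods_primeFactors h' hq.2).1
  have d1 : u ∣ u' := c1.dvd_of_dvd_mul_right (by rw [← heq]; exact dvd_mul_right u v)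
  have d2 : u' ∣ u := c2.dvd_of_dvd_mul_right (by rw [heq]; exact dvd_mul_right u' v')
  have e1 : u = u' := Nat.dvd_antisymm d1 d2
  subst e1
  have e2 : v = v' := Nat.eq_of_mul_eq_mul_left (Nat.pos_of_ne_zero hu) heq
  rw [e2]

/-- lower bound for binomial coefficients -/
theorem choose_ge (L m : ℕ) (h : m ≤ L) : L ^ m ≤ m ^ m * L.choose m := by
  have h1 : L ^ m * m.factorial ≤ m ^ m * L.descFactorial m := by
    rw [Nat.descFactorial_eq_prod_range, ← Nat.descFactorial_self,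
      Nat.descFactorial_eq_prod_range]
    rw [← prod_const_card_aux L m, ← prod_const_card_aux m m, ← prod_mul_distrib,
      ← prod_mul_distrib]
    apply prod_le_prod'
    intro i hi
    rw [mem_range] at hi
    obtain ⟨a, rfl⟩ := Nat.exists_eq_add_of_lt hi
    obtain ⟨b, rfl⟩ := Nat.exists_eq_add_of_le h
    have e1 : i + a + 1 - i = a + 1 := by omega
    have e2 : i + a + 1 + b - i = a + 1 + b := by omega
    rw [e1, e2]
    nlinarith
  rw [Nat.descFactorial_eq_factorial_mul_choose] at h1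
  have h2 : m.factorial * L ^ m ≤ m.factorial * (m ^ m * L.choose m) := by
    calc m.factorial * L ^ m = L ^ m * m.factorial := by ring
      _ ≤ _ := h1
      _ = _ := by ring
  exact Nat.le_of_mul_le_mul_left h2 (Nat.factorial_pos m)
where
  prod_const_card_aux (c m : ℕ) : ∏ _i ∈ range m, c = c ^ m := by
    rw [prod_const, card_range]

end Pool.Agent.FQ
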