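import Pool.Agent.FQ.Sets

/-!
# The finite theorem for the sets of smooth numbers (for MP_bcc756_nt)
-/

set_option autoImplicit false

open Finset

namespace Pool.Agent.FQ

theorem LQ_nonneg {Q : Finset ℕ} (hQ : ∀ p ∈ Q, p.Prime) (N : ℕ) : 0 ≤ LQ Q N := by
  unfold LQ
  apply sum_nonneg
  intro p hp
  exact mul_nonneg (Nat.cast_nonneg _) (Real.log_nonneg (by exact_mod_cast (hQ p hp).one_le))

theorem step (z L k₀ k₁ S V t R : ℕ) (κ : ℝ) (Q : Finset ℕ) (𝓛 : Fin 4 → Finset ℕ)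
    (hR : R = z ^ (k₀ + k₁))
    (hpr : ∀ i, ∀ p ∈ 𝓛 i, p.Prime) (hz : ∀ i, ∀ p ∈ 𝓛 i, p ≤ z)
    (hd : ∀ i j, i ≠ j → Disjoint (𝓛 i) (𝓛 j)) (hc : ∀ i, (𝓛 i).card = L)
    (hz2 : 2 ≤ z) (hk : 1 ≤ k₀ + k₁) (hQ : ∀ p ∈ Q, p.Prime) (ht1 : 1 ≤ t)
    (ht : ∀ m : ℕ, m ≤ R → m.divisors.card ≤ t)
    (hS : ∀ s : ℕ, Real.log s ≤ κ * Real.log R → s ≤ S) (hV : ∀ v : ℕ, v ^ 5 ≤ R → v ≤ V)
    (hVR : V ≤ R) (hκ : 0 < κ) (hk0 : (k₀ : ℝ) ≤ κ / 8 * ((k₀ : ℝ) + k₁))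
    (hQU : (Q.card : ℝ) ≤ κ / 8 * (L.choose k₀ : ℝ))
    (H : ∀ a b : ℕ, a ≠ 0 → b ≠ 0 → Nat.Coprime a b → (∀ p : ℕ, p.Prime → p ∣ a → p ≤ z) →
      (∀ p : ℕ, p.Prime → p ∣ b → p ≤ z) → ∀ p : ℕ, p.Prime → p ∉ Q → p ≤ R → p ∣ dst a b →
        p ^ 2 ∣ dst a b) :
    L.choose k₀ * L.choose k₁ ≤ 64 * t ^ 3 * S * V := by
  classical
  set U₁ := prods (𝓛 0) k₀ with hU₁
  set V₁ := prods (𝓛 1) k₁ with hV₁
  set U₂ := prods (𝓛 2) k₀ with hU₂
  set V₂ := prods (𝓛 3) k₁ with hV₂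
  set A := prods2 U₁ V₁ with hA
  set B := prods2 U₂ V₂ with hB
  set u := L.choose k₀ with hu
  set v := L.choose k₁ with hv
  have cU₁ : U₁.card = u := by rw [hU₁, card_prods (hpr 0), hc]
  have cU₂ : U₂.card = u := by rw [hU₂, card_prods (hpr 2), hc]
  have cV₁ : V₁.card = v := by rw [hV₁, card_prods (hpr 1), hc]
  have cV₂ : V₂.card = v := by rw [hV₂, card_prods (hpr 3), hc]
  have injA := prods2_injOn (hpr 0) (hpr 1) (hd 0 1 (by decide)) k₀ k₁
  have injB := prods2_injOn (hpr 2) (hpr 3) (hd 2 3 (by decide)) k₀ k₁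
  have cA : A.card = u * v := by
    rw [hA, prods2, card_image_of_injOn injA, card_product, cU₁, cV₁]
  have cB : B.card = u * v := by
    rw [hB, prods2, card_image_of_injOn injB, card_product, cU₂, cV₂]
  have hR0 : R = z ^ k₀ * z ^ k₁ := by rw [hR, pow_add]
  have hzpos : 0 < z := by omega
  have hRR : z ^ k₀ ≤ R := by
    rw [hR0]
    exact Nat.le_mul_of_pos_right _ (Nat.pow_pos hzpos)
  have hR2 : 2 ≤ R := by
    rw [hR]
    calc 2 ≤ z := hz2
      _ = z ^ 1 := (pow_one z).symm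
      _ ≤ z ^ (k₀ + k₁) := Nat.pow_le_pow_right hzpos hk
  have leA : ∀ x ∈ U₁, ∀ y ∈ V₁, x * y ≤ R := by
    intro x hx y hy
    rw [hR0]
    exact Nat.mul_le_mul (prods_le (hz 0) hx) (prods_le (hz 1) hy)
  have leB : ∀ x ∈ U₂, ∀ y ∈ V₂, x * y ≤ R := by
    intro x hx y hy
    rw [hR0]
    exact Nat.mul_le_mul (prods_le (hz 2) hx) (prods_le (hz 3) hy)
  -- coprimality
  have copr : ∀ x ∈ U₁, ∀ y ∈ V₁, ∀ x' ∈ U₂, ∀ y' ∈ V₂, Nat.Coprime (x * y) (x' * y') := by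
    intro x hx y hy x' hx' y' hy'
    have a1 := prods_ne_zero (hpr 0) hx
    have a2 := prods_ne_zero (hpr 1) hy
    have a3 := prods_ne_zero (hpr 2) hx'
    have a4 := prods_ne_zero (hpr 3) hy'
    have b1 := (prods_primeFactors (hpr 0) hx).1
    have b2 := (prods_primeFactors (hpr 1) hy).1
    have b3 := (prods_primeFactors (hpr 2) hx').1
    have b4 := (prods_primeFactors (hpr 3) hy').1
    apply Nat.Coprime.mul_left
    · apply Nat.Coprime.mul_right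
      · exact coprime_of_subset (hd 0 2 (by decide)) a1 a3 b1 b3
      · exact coprime_of_subset (hd 0 3 (by decide)) a1 a4 b1 b4
    · apply Nat.Coprime.mul_right
      · exact coprime_of_subset (hd 1 2 (by decide)) a2 a3 b2 b3
      · exact coprime_of_subset (hd 1 3 (by decide)) a2 a4 b2 b4
  have big : ∀ x ∈ U₁, ∀ y ∈ V₁, x * y ≠ 1 := by
    intro x hx y hy h1
    have h1 : x = 1 ∧ y = 1 := ⟨Nat.eq_one_of_mul_eq_one_right h1, Nat.eq_one_of_mul_eq_one_left h1⟩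
    have c1 := (prods_primeFactors (hpr 0) hx).2
    have c2 := (prods_primeFactors (hpr 1) hy).2
    rw [h1.1] at c1
    rw [h1.2] at c2
    simp at c1 c2
    omega
  have hne : ∀ x ∈ U₁, ∀ y ∈ V₁, ∀ x' ∈ U₂, ∀ y' ∈ V₂, x * y ≠ x' * y' := by
    intro x hx y hy x' hx' y' hy' heq
    have h1 := copr x hx y hy x' hx' y' hy'
    rw [← heq, Nat.coprime_self] at h1
    exact big x hx y hy h1
  -- members of A and B
  have memA : ∀ a ∈ A, ∃ x ∈ U₁, ∃ y ∈ V₁, a = x * y := by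
    intro a ha
    rw [hA, prods2, mem_image] at ha
    obtain ⟨⟨x, y⟩, hxy, rfl⟩ := ha
    rw [mem_product] at hxy
    exact ⟨x, hxy.1, y, hxy.2, rfl⟩
  have memB : ∀ a ∈ B, ∃ x ∈ U₂, ∃ y ∈ V₂, a = x * y := by
    intro a ha
    rw [hB, prods2, mem_image] at ha
    obtain ⟨⟨x, y⟩, hxy, rfl⟩ := ha
    rw [mem_product] at hxy
    exact ⟨x, hxy.1, y, hxy.2, rfl⟩
  have hAR : ∀ a ∈ A, a ≤ R := by
    intro a ha
    obtain ⟨x, hx, y, hy, rfl⟩ := memA a ha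
    exact leA x hx y hy
  have hBR : ∀ a ∈ B, a ≤ R := by
    intro a ha
    obtain ⟨x, hx, y, hy, rfl⟩ := memB a ha
    exact leB x hx y hy
  have hAB : ∀ a ∈ A, ∀ b ∈ B, a ≠ b := by
    intro a ha b hb
    obtain ⟨x, hx, y, hy, rfl⟩ := memA a ha
    obtain ⟨x', hx', y', hy', rfl⟩ := memB b hb
    exact hne x hx y hy x' hx' y' hy'
  have smA : ∀ a ∈ A, a ≠ 0 ∧ ∀ p : ℕ, p.Prime → p ∣ a → p ≤ z := by
    intro a ha
    obtain ⟨x, hx, y, hy, rfl⟩ := memA a ha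
    have a1 := prods_ne_zero (hpr 0) hx
    have a2 := prods_ne_zero (hpr 1) hy
    refine ⟨mul_ne_zero a1 a2, ?_⟩
    intro p hp hpd
    rcases (hp.dvd_mul).1 hpd with h | h
    · exact hz 0 p ((prods_primeFactors (hpr 0) hx).1 (Nat.mem_primeFactors.2 ⟨hp, h, a1⟩))
    · exact hz 1 p ((prods_primeFactors (hpr 1) hy).1 (Nat.mem_primeFactors.2 ⟨hp, h, a2⟩))
  have smB : ∀ a ∈ B, a ≠ 0 ∧ ∀ p : ℕ, p.Prime → p ∣ a → p ≤ z := by
    intro a ha
    obtain ⟨x, hx, y, hy, rfl⟩ := memB a ha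
    have a1 := prods_ne_zero (hpr 2) hx
    have a2 := prods_ne_zero (hpr 3) hy
    refine ⟨mul_ne_zero a1 a2, ?_⟩
    intro p hp hpd
    rcases (hp.dvd_mul).1 hpd with h | h
    · exact hz 2 p ((prods_primeFactors (hpr 2) hx).1 (Nat.mem_primeFactors.2 ⟨hp, h, a1⟩))
    · exact hz 3 p ((prods_primeFactors (hpr 3) hy).1 (Nat.mem_primeFactors.2 ⟨hp, h, a2⟩))
  -- average of LQ
  have hlogR : 0 < Real.log R := Real.log_pos (by exact_mod_cast (show 1 < R by omega))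
  have hlogz : 0 < Real.log z := Real.log_pos (by exact_mod_cast (show 1 < z by omega))
  have hlogR' : Real.log R = ((k₀ : ℝ) + k₁) * Real.log z := by
    rw [hR]
    push_cast
    rw [Real.log_pow]
    push_cast
    ring
  have hlogR₀ : Real.log ((z ^ k₀ : ℕ) : ℝ) ≤ κ / 8 * Real.log R := by
    push_cast
    rw [Real.log_pow, hlogR']
    calc (k₀ : ℝ) * Real.log z ≤ (κ / 8 * ((k₀ : ℝ) + k₁)) * Real.log z :=
          mul_le_mul_of_nonneg_right hk0 hlogz.le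
      _ = _ := by ring
  have hsum : ∑ q ∈ A ×ˢ B, LQ Q (dst q.1 q.2) ≤
      ((u * v : ℕ) : ℝ) ^ 2 * (κ / 4 * Real.log R) := by
    have e1 : ∑ q ∈ A ×ˢ B, LQ Q (dst q.1 q.2) =
        ∑ y ∈ V₁, ∑ y' ∈ V₂, ∑ x ∈ U₁, ∑ x' ∈ U₂, LQ Q (dst (x * y) (x' * y')) := by
      rw [sum_product, hA, prods2, sum_image injA, sum_product]
      have e2 : ∀ x ∈ U₁, ∀ y ∈ V₁, ∑ b ∈ B, LQ Q (dst (x * y) b) =
          ∑ y' ∈ V₂, ∑ x' ∈ U₂, LQ Q (dst (x * y) (x' * y')) := by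
        intro x _ y _
        rw [hB, prods2, sum_image injB, sum_product, sum_comm]
      rw [sum_congr rfl (fun x hx => sum_congr rfl (fun y hy => e2 x hx y hy)), sum_comm]
      apply sum_congr rfl
      intro y _
      rw [sum_comm]
    rw [e1]
    have e3 : ∀ y ∈ V₁, ∀ y' ∈ V₂, ∑ x ∈ U₁, ∑ x' ∈ U₂, LQ Q (dst (x * y) (x' * y')) ≤
        (u : ℝ) ^ 2 * (κ / 4 * Real.log R) := by
      intro y hy y' hy'
      have h1 := LQ_sum_le R (z ^ k₀) u (Nat.pow_pos hzpos) hRR Q hQ U₁ U₂ y y'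
        (fun x hx x' hx' => copr x hx y hy x' hx' y' hy') cU₁ cU₂
        (fun x hx => prods_le (hz 0) hx) (fun x hx => prods_le (hz 2) hx)
        (fun x hx x' hx' => hne x hx y hy x' hx' y' hy')
        (fun x hx => leA x hx y hy) (fun x hx => leB x hx y' hy')
      refine h1.trans ?_
      have h2 : (u : ℝ) * (Q.card * Real.log R) ≤ (u : ℝ) ^ 2 * (κ / 8 * Real.log R) := by
        calc (u : ℝ) * (Q.card * Real.log R) ≤ (u : ℝ) * ((κ / 8 * (u : ℝ)) * Real.log R) := by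
              apply mul_le_mul_of_nonneg_left _ (Nat.cast_nonneg u)
              exact mul_le_mul_of_nonneg_right hQU hlogR.le
          _ = _ := by ring
      have h3 : (u : ℝ) ^ 2 * Real.log ((z ^ k₀ : ℕ) : ℝ) ≤
          (u : ℝ) ^ 2 * (κ / 8 * Real.log R) :=
        mul_le_mul_of_nonneg_left hlogR₀ (by positivity)
      linarith
    calc ∑ y ∈ V₁, ∑ y' ∈ V₂, ∑ x ∈ U₁, ∑ x' ∈ U₂, LQ Q (dst (x * y) (x' * y'))
        ≤ ∑ y ∈ V₁, ∑ y' ∈ V₂, (u : ℝ) ^ 2 * (κ / 4 * Real.log R) :=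
          sum_le_sum fun y hy => sum_le_sum fun y' hy' => e3 y hy y' hy'
      _ = ((u * v : ℕ) : ℝ) ^ 2 * (κ / 4 * Real.log R) := by
          rw [sum_const, sum_const, cV₁, cV₂, nsmul_eq_mul, nsmul_eq_mul]
          push_cast
          ring
  -- Markov
  have hbad : 4 * ((A ×ˢ B).filter (fun q => κ * Real.log R < LQ Q (dst q.1 q.2))).card ≤
      (u * v) ^ 2 := by
    set Bd := (A ×ˢ B).filter (fun q => κ * Real.log R < LQ Q (dst q.1 q.2)) with hBd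
    have h1 : (Bd.card : ℝ) * (κ * Real.log R) ≤ ∑ q ∈ A ×ˢ B, LQ Q (dst q.1 q.2) := by
      calc (Bd.card : ℝ) * (κ * Real.log R) = ∑ q ∈ Bd, κ * Real.log R := by
            rw [sum_const, nsmul_eq_mul]
        _ ≤ ∑ q ∈ Bd, LQ Q (dst q.1 q.2) := by
            apply sum_le_sum
            intro q hq
            exact (mem_filter.1 hq).2.le
        _ ≤ _ := by
            apply sum_le_sum_of_subset_of_nonneg (filter_subset _ _)
            intro q _ _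
            exact LQ_nonneg hQ _
    have h2 : (4 * (Bd.card : ℝ)) * (κ / 4 * Real.log R) ≤
        ((u * v : ℕ) : ℝ) ^ 2 * (κ / 4 * Real.log R) := by
      calc (4 * (Bd.card : ℝ)) * (κ / 4 * Real.log R) = (Bd.card : ℝ) * (κ * Real.log R) := by ring
        _ ≤ _ := h1.trans hsum
    have h3 := le_of_mul_le_mul_right h2 (by positivity)
    exact_mod_cast h3
  exact core R S V t (u * v) (κ * Real.log R) Q A B cA cB hAR hBR hAB ht1 ht hS hV hVR
    (by convert hbad) (fun a ha b hb p hp hpQ hpd => by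
      have hcab : Nat.Coprime a b := by
        obtain ⟨x, hx, y, hy, rfl⟩ := memA a ha
        obtain ⟨x', hx', y', hy', rfl⟩ := memB b hb
        exact copr x hx y hy x' hx' y' hy'
      refine H a b (smA a ha).1 (smB b hb).1 hcab (smA a ha).2 (smB b hb).2 p hp hpQ ?_ hpd
      have h1 : dst a b ≠ 0 := by
        have := hAB a ha b hb
        unfold dst
        omega
      have h2 : dst a b ≤ R := by
        have := hAR a ha
        have := hBR b hb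
        unfold dst
        omega
      exact (Nat.le_of_dvd (Nat.pos_of_ne_zero h1) hpd).trans h2)

end Pool.Agent.FQ
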